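import Pool.Agent.L5helper20.MQ.Cls

set_option autoImplicit false
set_option linter.unusedSectionVars false
set_option linter.unusedVariables false

/-! # The stronger form of the strong monodromy conjecture: the base classes -/

namespace Pool.Agent.L5helper20.MQ

open Polynomial Pool.Agent.W574.SM Pool.Agent.W574.CN Pool.Agent.W574.RO Pool.Agent.Y229
open Pool.Agent.W574.HS Pool.Agent.Y230.PS Pool.Agent.Y230.TH Pool.Agent.R852.TP
open Pool.Agent.R852.PP Pool.Agent.W425.SM Pool.Agent.W425.SV Pool.Agent.W422.GC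
open Pool.Agent.W425.SU Pool.Agent.W425.SI Pool.Agent.W425.MM Pool.Agent.TH187.SA
open Pool.Agent.Y228.AT (AllGlobal allGlobal_poles topZeta_pole gens_ne)
open Pool.Agent.Y230.RS (topZeta)
open Pool.Agent.Y230.PL (tt tt_mem)

/-- the poles have negative real part -/
def Neg (Z : RatFunc ℂ) : Prop := ∀ s : ℂ, Z.denom.eval s = 0 → s.re < 0

theorem neg_of_reg {Z : RatFunc ℂ} (h : ∀ s : ℂ, 0 ≤ s.re → Z ∈ Reg s) : Neg Z := by
  intro s hs
  by_contra hlt
  exact Reg_denom s _ (h s (not_lt.1 hlt)) hs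

theorem reg_of_neg {Z : RatFunc ℂ} (h : Neg Z) (s : ℂ) (hs : 0 ≤ s.re) : Z ∈ Reg s :=
  mem_Reg_of_denom _ _ fun h0 => absurd (h s h0) (not_lt.2 hs)

theorem fac_reg (a n : ℕ) (hn : 1 ≤ n) (s : ℂ) (hs : 0 ≤ s.re) : fac a n ∈ Reg s := by
  refine fac_mem a n s fun h => ?_
  have h1 := congrArg Complex.re h
  have h2 : ((n : ℂ) + a * s).re = n + a * s.re := by
    rw [Complex.add_re, Complex.natCast_re, ← Complex.ofReal_natCast, Complex.re_ofReal_mul]
  rw [h2, Complex.zero_re] at h1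
  have h3 : (1 : ℝ) ≤ n := by exact_mod_cast hn
  have h4 : (0 : ℝ) ≤ a * s.re := mul_nonneg (Nat.cast_nonneg a) hs
  linarith

theorem local_reg {ι : Type} {g : ι → MvPolynomial (Fin 2) ℂ} {a₀ n₀ a₁ n₁ : ℕ}
    {Z : RatFunc ℂ} (h : LocalZeta g a₀ n₀ a₁ n₁ Z) (s : ℂ) (hs : 0 ≤ s.re) :
    1 ≤ n₀ → 1 ≤ n₁ → Z ∈ Reg s := by
  induction h with
  | unit g a₀ n₀ a₁ n₁ j hj =>
    exact fun h0 h1 => (Reg s).mul_mem (fac_reg _ _ h0 s hs) (fac_reg _ _ h1 s hs)
  | curveV g a₀ n₀ m hm h k hg h0 h1 j hj =>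
    exact fun h0 h1 => (Reg s).mul_mem (fac_reg _ _ h0 s hs) (fac_reg _ _ le_rfl s hs)
  | curveU g a₁ n₁ m hm h k hg h0 h1 j hj =>
    exact fun h0 h1 => (Reg s).mul_mem (fac_reg _ _ h1 s hs) (fac_reg _ _ le_rfl s hs)
  | blowup g a₀ n₀ a₁ n₁ m hm gc gI hgc hgI S h0S hS Zc ZI h0 hc hI ih0 ihc ihI =>
    intro h1 h2
    refine (Reg s).add_mem ((Reg s).add_mem (ihI h1 (by omega)) (Subring.sum_mem _
      fun c hcS => ?_)) ((Reg s).mul_mem ((Reg s).sub_mem (Reg s).one_mem (natCast_mem _ _))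
        (fac_reg _ _ (by omega) s hs))
    by_cases hc0 : c = 0
    · subst hc0
      exact ih0 (by omega) h2
    · exact ihc c hcS hc0 (by omega) le_rfl

theorem plane_neg {ι : Type} {f : ι → MvPolynomial (Fin 2) ℂ} {Z : RatFunc ℂ}
    (hZ : PlaneZeta f Z) : Neg Z := by
  obtain ⟨χ₀, r, h, m, χ, S, ZP, hC, hP, rfl⟩ := hZ
  refine neg_of_reg fun s hs => ?_
  refine (Reg s).add_mem ((Reg s).add_mem (intCast_mem _ _) (Subring.sum_mem _ fun i _ =>
    (Reg s).mul_mem (intCast_mem _ _) (fac_reg _ _ le_rfl s hs))) (Subring.sum_mem _ fun P hPS =>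
      local_reg (hP P hPS) s hs le_rfl le_rfl)

theorem ray_ne {N : ℕ} (R : SmoothFan N) (σ : Finset (Fin N → ℕ)) (hσ : σ ∈ R.cones)
    (ρ : Fin N → ℕ) (hρ : ρ ∈ σ) : 1 ≤ ∑ l, ρ l := by
  by_contra h
  have h0 : ∑ l, ρ l = 0 := by omega
  have h1 : ∀ l, ρ l = 0 := fun l => (Finset.sum_eq_zero_iff.1 h0) l (Finset.mem_univ l)
  obtain ⟨B, hB, h2⟩ := R.smooth σ hσ
  obtain ⟨i, hi⟩ := h2 ρ hρ
  have h3 : B.det = 0 := Matrix.det_eq_zero_of_row_eq_zero i fun l => by rw [hi, h1 l]; rfl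
  rw [h3] at hB
  exact not_isUnit_zero hB

theorem ray_reg {a n : ℕ} (hn : 1 ≤ n) (s : ℂ) (hs : 0 ≤ s.re) :
    ((a : RatFunc ℂ) * RatFunc.X + ((n : ℕ) : RatFunc ℂ))⁻¹ ∈ Reg s := by
  have h := fac_reg a n hn s hs
  rw [fac, one_div, add_comm] at h
  exact h

theorem topZetaG_neg {r N : ℕ} (v : Fin r → Fin N → ℕ) (R : SmoothFan N) :
    Neg (topZetaG v R) := by
  refine neg_of_reg fun s hs => Subring.sum_mem _ fun σ hσ => ?_
  refine (Reg s).mul_mem ((Reg s).add_mem (C_reg s _) ((Reg s).mul_mem (C_reg s _) ?_))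
    (Subring.prod_mem _ fun ρ hρ => ray_reg (ray_ne R σ hσ ρ hρ) s hs)
  refine X1_inv s fun h => ?_
  rw [h] at hs
  norm_num at hs

theorem topZetaI_neg {r k N : ℕ} (π : Fin r → Fin k) (w : Fin r → Fin N → ℕ)
    (R : SmoothFan (k + N)) : Neg (topZetaI π w R) := by
  refine neg_of_reg fun s hs => ?_
  rw [topZetaI]
  exact (Reg s).mul_mem (X1_reg s) (reg_of_neg (topZetaG_neg _ R) s hs)

theorem topZeta_neg {J : Type} [Fintype J] [DecidableEq J] (a k : J → ℕ) (χ : Finset J → ℤ) :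
    Neg (topZeta a k χ) := by
  intro s hs
  obtain ⟨S, hS, i, hi, h1, h2⟩ := topZeta_pole a k χ s hs
  by_contra hlt
  have h3 := congrArg Complex.re h2
  have h4 : (((k i + 1 : ℕ) : ℂ) + a i * s).re = ((k i + 1 : ℕ) : ℝ) + a i * s.re := by
    rw [Complex.add_re, Complex.natCast_re, ← Complex.ofReal_natCast, Complex.re_ofReal_mul]
  rw [h4, Complex.zero_re] at h3
  have h5 : (0 : ℝ) ≤ a i * s.re := mul_nonneg (Nat.cast_nonneg _) (not_lt.1 hlt)
  have h6 : (1 : ℝ) ≤ ((k i + 1 : ℕ) : ℝ) := by exact_mod_cast Nat.succ_pos _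
  linarith

theorem sa_neg (A : Fam) (Z : RatFunc ℂ) (h : StrongAt A Z) : Neg Z := by
  cases h with
  | all _ _ h =>
    cases h with
    | basic _ _ h =>
      cases h with
      | power m hm => exact neg_of_reg fun s hs => fac_reg _ _ le_rfl s hs
      | plane r f hf Z hZ => exact plane_neg hZ
      | cone r f d hd hf e he Z hZ =>
        obtain ⟨Zc, h1, rfl⟩ := hZ
        exact neg_of_reg fun s hs => (Reg s).mul_mem (Subring.sum_mem _ fun i _ =>
          reg_of_neg (plane_neg (h1 i)) s hs) (fac_reg _ _ (by norm_num) s hs)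
      | free n r f d hd hf h0 e he =>
        exact neg_of_reg fun s hs => (Reg s).mul_mem (natCast_mem _ _)
          (fac_reg _ _ (Nat.succ_pos _) s hs)
    | rees σ ι J f hf a k χ h => exact topZeta_neg a k χ
    | generic r k N hr F π w hw h hh a ha R hR => exact topZetaI_neg π w R
  | arr σ S I κ c hc e G hG χ => exact topZeta_neg _ _ χ

theorem sh_neg (A : Fam) (Z : RatFunc ℂ) (h : StrongHyp A Z) : Neg Z := by
  cases h with
  | curve g hg Z hZ => exact plane_neg hZ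
  | generic r N hr F v hv hv0 h hh a ha R hR => exact topZetaG_neg v R

theorem neg_scale {p q : ℂ[X]} (hq : q ≠ 0) (k : ℕ) (hk : k ≠ 0)
    (h : Neg (algebraMap ℂ[X] (RatFunc ℂ) p / algebraMap ℂ[X] (RatFunc ℂ) q)) :
    Neg (algebraMap ℂ[X] (RatFunc ℂ) (p.comp (C (k : ℂ) * X)) /
      algebraMap ℂ[X] (RatFunc ℂ) (q.comp (C (k : ℂ) * X))) := by
  intro s hs
  have h1 := h _ (pole_scale k hk p q hq s hs)
  have e : ((k : ℂ) * s).re = k * s.re := by
    rw [← Complex.ofReal_natCast, Complex.re_ofReal_mul]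
  rw [e] at h1
  by_contra h2
  exact absurd h1 (not_lt.2 (mul_nonneg (Nat.cast_nonneg k) (not_lt.1 h2)))

/-- the poles of the zeta functions of the starting class -/
theorem tp_neg (c : Bool) (A : Fam) (Z : RatFunc ℂ) (h : TPw StrongAt StrongHyp c A Z) :
    Neg Z := by
  induction h with
  | atom A Z h => exact sa_neg A Z h
  | hatom A Z h => exact sh_neg A Z h
  | hyp A Z h ih => exact ih
  | pow σ g k hk p q hq h ih => exact neg_scale hq k hk ih
  | sum A B Z W v w hv hw hv0 hw0 hA hB ihA ihB =>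
    intro s hs
    obtain ⟨p, hp, q, hq, rfl⟩ := lap2_pole v w s hs
    rw [Complex.add_re]
    exact add_neg (ihA _ (pole_of_exp Z v hv hv0 p hp)) (ihB _ (pole_of_exp W w hw hw0 q hq))
  | mul c A B Z W hA hB ihA ihB =>
    intro s hs
    rcases pole_mul Z W s hs with h | h
    · exact ihA s h
    · exact ihB s h
  | univ A Z hA ihA =>
    intro s hs
    rcases pole_form Z s hs with h | rfl
    · exact ihA s h
    · norm_num
  | form σ τ κ a ha h f Z hA ihA =>
    refine neg_of_reg fun s hs => (Reg s).mul_mem (reg_of_neg ihA s hs)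
      (Subring.prod_mem _ fun t _ => fac_reg _ _ le_rfl s hs)
  | ts A τ g Z W v w c hv hw hv0 hw0 hA hg ihA ihg =>
    intro s hs
    rcases pole_form _ s hs with h | rfl
    · have h2 : (1 - RatFunc.X * lap2 v w).denom.eval s = 0 := by
        by_contra h2
        refine Reg_denom s _ ?_ h
        have h3 := (Reg s).add_mem (mem_Reg_of_denom _ _ h2)
          ((Reg s).mul_mem (X_reg s) (C_reg s (c * val0 v)))
        have e : 1 - RatFunc.X * lap2 v w + RatFunc.X * RatFunc.C (c * val0 v) =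
          1 - RatFunc.X * (lap2 v w - RatFunc.C (c * val0 v)) := by ring
        rwa [e] at h3
      obtain ⟨p, hp, q, hq, rfl⟩ := lap2_pole v w s h2
      have h5 := order_of_exp 1 _ (fun s => (Reg s).one_mem) w c hw hw0 q hq
      have h6 := pole_of_ref W _ (pole_of_ro (lt_of_lt_of_le (Nat.succ_pos _) h5))
      rw [Complex.add_re]
      exact add_neg (ihA _ (pole_of_exp Z v hv hv0 p hp)) (ihg _ h6)
    · norm_num
  | drop σ κ g Z h ih => exact ih
  | equiv c A B i k h Z hA ihA => exact ihA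

/-- the ideals of the starting class with simple poles -/
theorem strong_simple (A : Fam) (Z : RatFunc ℂ) (h : TPw StrongAt StrongHyp false A Z)
    (h1 : ∀ s : ℂ, Z.denom.rootMultiplicity s ≤ 1) : Strong A Z := by
  classical
  have hC := tp_closure ⊥ bot_div StrongAt StrongHyp (fun A Z h => sa_at ⊥ A Z h)
    (fun A Z h => strongHyp_cl ⊥ A Z h) false _ Z h
  refine strong_of_fm hC.fin hC.ne (tp_neg false A Z h) fun s _ => ?_
  by_cases hs : Z.denom.eval s = 0
  · obtain ⟨t, ht, h2⟩ := hC.pole s hs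
    rw [AddSubmonoid.mem_bot] at ht
    rw [ht, sub_zero] at h2
    exact h2.mono (h1 s)
  · rw [ro_zero hs]
    exact fm_zero _ _

theorem strong_plane {κ : Type} [Fintype κ] (f : κ → MvPolynomial (Fin 2) ℂ)
    (hf : ∃ j, f j ≠ 0) (Z : RatFunc ℂ) (hZ : PlaneZeta f Z) : Strong ⟨Fin 2, κ, f⟩ Z :=
  ⟨inferInstanceAs (Finite (Fin 2)), hf, plane_neg hZ,
    fun b hb => Pool.Agent.Y230.PL.plane_q2 f b hb Z hZ⟩

theorem strong_hyper (r N : ℕ) (hr : 1 ≤ r) (F : Subfield ℂ) (v : Fin r → Fin N → ℕ)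
      (hv : Function.Injective v) (hv0 : ∀ j, v j ≠ 0) (h : MvPolynomial (Fin N) F)
      (hh : ∀ w ∈ h.support, Hull v w) (a : Fin r → ℂ) (ha : AlgebraicIndependent F a)
      (R : SmoothFan N) (hR : Principal v R) :
      Strong ⟨Fin N, Fin 1, fun _ => sparse v a + MvPolynomial.map (algebraMap F ℂ) h⟩
        (topZetaG v R) := by
  classical
  obtain ⟨g, hg, h1⟩ := Pool.Agent.W425.GN.gen_top hr v hv hv0 h hh
  have hga : MvPolynomial.aeval a g ≠ 0 := fun h0 => hg (ha (by rw [h0, map_zero]))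
  obtain ⟨g', hg', h1'⟩ := Pool.Agent.W425.GN.gen_ne (show 0 < r by omega) v hv h
  have hga' : MvPolynomial.aeval a g' ≠ 0 := fun h0 => hg' (ha (by rw [h0, map_zero]))
  have hne : (sparse v a + MvPolynomial.map (algebraMap F ℂ) h) ≠ 0 := h1' a hga'
  exact ⟨inferInstanceAs (Finite (Fin N)), ⟨(0 : Fin 1), hne⟩, topZetaG_neg v R, fun b hb =>
    (h1 a hga).2 b (isB_of_single _ b hb) R hR⟩

theorem strong_generic (r k N : ℕ) (hr : 1 ≤ r) (F : Subfield ℂ) (π : Fin r → Fin k)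
      (w : Fin r → Fin N → ℕ) (hw : Function.Injective fun j => (π j, w j))
      (h : Fin k → MvPolynomial (Fin N) F) (hh : ∀ i, ∀ u ∈ (h i).support, HullAt π w i u)
      (a : Fin r → ℂ) (ha : AlgebraicIndependent F a) (R : SmoothFan (k + N))
      (hR : Principal (cay π w) R) :
      Strong ⟨Fin N, Fin k, fun i => gens π w a i + MvPolynomial.map (algebraMap F ℂ) (h i)⟩
        (topZetaI π w R) :=
  ⟨inferInstanceAs (Finite (Fin N)), gens_ne hr F π w hw h a ha, topZetaI_neg π w R, fun b hb =>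
    finalIdealC hr π w a hw ha h hh
      (fun i => gens π w a i + MvPolynomial.map (algebraMap F ℂ) (h i)) (fun _ => 1) (fun _ => 1)
      (fun _ => one_ne_zero) (fun _ => one_ne_zero) (fun i => by simp) R hR b hb⟩

end Pool.Agent.L5helper20.MQ
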