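import Pool.Agent.L5helper20.MQ.PowA
import Pool.Agent.R852.PP.Pow
import Pool.Agent.Y230.PS.Force

set_option autoImplicit false
set_option linter.unusedSectionVars false

/-! # Powers of ideals: the functional equations and the multiplicities -/

namespace Pool.Agent.L5helper20.MQ

open MvPolynomial Pool.Agent.W574.SM Pool.Agent.W574.HS Pool.Agent.W574.RO Pool.Agent.R852.PP
open Pool.Agent.Y230.PS (FM)

section

variable {σ ι : Type} [Fintype ι] [DecidableEq ι]

/-- one term of the right hand side, along a ray -/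
theorem fr_ray (f : ι → MvPolynomial σ ℂ) (j0 : ι) (s d e : ι →₀ ℕ) (R : weyl σ) :
    Fr (f j0) fun n => (df (s + Finsupp.single j0 n) d : ℂ) •
      (R : Module.End ℂ (MvPolynomial σ ℂ)) (pw f (s + Finsupp.single j0 n - d + e)) := by
  classical
  have h1 : Fr (f j0) fun n => (df (s + Finsupp.single j0 n) d : ℂ) •
      pw f (s + Finsupp.single j0 n - d + e) := by
    refine ⟨d j0, Polynomial.C (pw f e * (C (((∏ j ∈ Finset.univ.erase j0,
      (s j).descFactorial (d j) : ℕ) : ℂ)) *
        ∏ j ∈ Finset.univ.erase j0, f j ^ (s j - d j)) * f j0 ^ s j0) *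
      ((descPochhammer ℂ (d j0)).comp (Polynomial.X + Polynomial.C (s j0 : ℂ))).map C,
      fun n => ?_⟩
    have e1 : df (s + Finsupp.single j0 n) d = (s j0 + n).descFactorial (d j0) *
        ∏ j ∈ Finset.univ.erase j0, (s j).descFactorial (d j) := by
      unfold df
      rw [← Finset.mul_prod_erase _ _ (Finset.mem_univ j0), Finsupp.add_apply,
        Finsupp.single_eq_same]
      congr 1
      refine Finset.prod_congr rfl fun j hj => ?_
      rw [Finsupp.add_apply, Finsupp.single_eq_of_ne (Finset.ne_of_mem_erase hj), add_zero]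
    have e2 : pw f (s + Finsupp.single j0 n - d) = f j0 ^ (s j0 + n - d j0) *
        ∏ j ∈ Finset.univ.erase j0, f j ^ (s j - d j) := by
      unfold pw
      rw [← Finset.mul_prod_erase _ _ (Finset.mem_univ j0), Finsupp.tsub_apply,
        Finsupp.add_apply, Finsupp.single_eq_same]
      congr 1
      refine Finset.prod_congr rfl fun j hj => ?_
      rw [Finsupp.tsub_apply, Finsupp.add_apply,
        Finsupp.single_eq_of_ne (Finset.ne_of_mem_erase hj), add_zero]
    have e3 : (((descPochhammer ℂ (d j0)).comp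
        (Polynomial.X + Polynomial.C (s j0 : ℂ))).map C).eval
          ((n : ℕ) : MvPolynomial σ ℂ) = C (((s j0 + n).descFactorial (d j0) : ℕ) : ℂ) := by
      rw [Polynomial.eval_map, Polynomial.eval₂_at_natCast, Polynomial.eval_comp,
        Polynomial.eval_add, Polynomial.eval_X, Polynomial.eval_C, add_comm,
        ← Nat.cast_add, descPochhammer_eval_eq_descFactorial]
    have e4 : C (((s j0 + n).descFactorial (d j0) : ℕ) : ℂ) *
        (f j0 ^ d j0 * f j0 ^ (s j0 + n - d j0)) =
        C (((s j0 + n).descFactorial (d j0) : ℕ) : ℂ) * (f j0 ^ s j0 * f j0 ^ n) := by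
      by_cases h0 : (s j0 + n).descFactorial (d j0) = 0
      · rw [h0, Nat.cast_zero, C_0, zero_mul, zero_mul]
      · rw [Nat.descFactorial_eq_zero_iff_lt, not_lt] at h0
        rw [← pow_add, ← pow_add, Nat.add_sub_cancel' h0]
    beta_reduce
    rw [Polynomial.eval_mul, Polynomial.eval_C, e3, pw_add, e2, e1, Nat.cast_mul, ← C_mul',
      C_mul]
    linear_combination (pw f e * C (((∏ j ∈ Finset.univ.erase j0,
      (s j).descFactorial (d j) : ℕ) : ℂ)) *
        ∏ j ∈ Finset.univ.erase j0, f j ^ (s j - d j)) * e4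
  have h2 := fr_weyl (R : Module.End ℂ (MvPolynomial σ ℂ)) R.2 _ h1
  simp only [map_smul] at h2
  exact h2

/-- an identity in the degrees divisible by `k` holds in all degrees -/
theorem dense (k : ℕ) (hk : k ≠ 0) (f : ι → MvPolynomial σ ℂ) (j0 : ι) (hj0 : f j0 ≠ 0)
    (q : Polynomial ℂ) {L : Type} [Fintype L] (p : L → Polynomial ℂ) (d e : L → ι →₀ ℕ)
    (R : L → weyl σ) (h : ∀ (S : ℕ) (s : ι →₀ ℕ), ∑ j, s j = k * S →
      q.eval ((∑ j, s j : ℕ) : ℂ) • pw f s = ∑ l, ((p l).eval ((∑ j, s j : ℕ) : ℂ) *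
        (df s (d l) : ℂ)) • (R l : Module.End ℂ (MvPolynomial σ ℂ)) (pw f (s - d l + e l)))
    (s : ι →₀ ℕ) :
      q.eval ((∑ j, s j : ℕ) : ℂ) • pw f s = ∑ l, ((p l).eval ((∑ j, s j : ℕ) : ℂ) *
        (df s (d l) : ℂ)) • (R l : Module.End ℂ (MvPolynomial σ ℂ)) (pw f (s - d l + e l)) := by
  classical
  set N : ℕ := ∑ j, s j with hN
  have hsum : ∀ n, ∑ j, (s + Finsupp.single j0 n : ι →₀ ℕ) j = n + N := by
    intro n
    rw [sum_add', sum_single', add_comm]
  set u : ℕ → MvPolynomial σ ℂ := fun n => (∑ l, ((p l).comp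
    (Polynomial.X + Polynomial.C (N : ℂ))).eval (n : ℂ) •
      ((df (s + Finsupp.single j0 n) (d l) : ℂ) • (R l : Module.End ℂ (MvPolynomial σ ℂ))
        (pw f (s + Finsupp.single j0 n - d l + e l)))) +
    (-1 : ℂ) • ((q.comp (Polynomial.X + Polynomial.C (N : ℂ))).eval (n : ℂ) •
      pw f (s + Finsupp.single j0 n)) with hu
  have hev : ∀ (r : Polynomial ℂ) (n : ℕ), (r.comp (Polynomial.X + Polynomial.C (N : ℂ))).eval
      (n : ℂ) = r.eval ((n + N : ℕ) : ℂ) := by
    intro r n
    rw [Polynomial.eval_comp, Polynomial.eval_add, Polynomial.eval_X, Polynomial.eval_C,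
      Nat.cast_add]
  have hfr0 : Fr (f j0) (fun n => pw f (s + Finsupp.single j0 n)) :=
    ⟨0, Polynomial.C (pw f s), fun n => by
      beta_reduce
      rw [Polynomial.eval_C, pw_add, pw_single]; ring⟩
  have hfr : Fr (f j0) u := by
    refine fr_add (fr_sum _ _ _ fun l _ => ?_) ?_
    · exact fr_pol (fr_ray f j0 s (d l) (e l) (R l)) _
    · have h1 := fr_pol (fr_pol hfr0 (q.comp (Polynomial.X + Polynomial.C (N : ℂ))))
        (Polynomial.C (-1))
      simp only [Polynomial.eval_C] at h1
      exact h1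
  have hzero : ∀ t : ℕ, u (k * t + (k - 1) * N) = 0 := by
    intro t
    have e1 : k * t + (k - 1) * N + N = k * (t + N) := by
      obtain ⟨k', rfl⟩ := Nat.exists_eq_succ_of_ne_zero hk
      rw [Nat.succ_eq_add_one, Nat.add_sub_cancel]
      ring
    have h1 := h (t + N) (s + Finsupp.single j0 (k * t + (k - 1) * N)) (by rw [hsum, e1])
    rw [hsum] at h1
    rw [hu]
    beta_reduce
    simp only [hev, smul_smul]
    rw [← h1, ← add_smul]
    ring_nf
    simp
  obtain ⟨M, ρ, e0⟩ := hfr
  have hρ : ρ = 0 := by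
    refine Polynomial.eq_zero_of_infinite_isRoot ρ ?_
    have hinj : Function.Injective
        (fun t : ℕ => ((k * t + (k - 1) * N : ℕ) : MvPolynomial σ ℂ)) := by
      intro n n' h
      have h1 : k * n + (k - 1) * N = k * n' + (k - 1) * N :=
        Nat.cast_injective (R := MvPolynomial σ ℂ) h
      exact Nat.eq_of_mul_eq_mul_left (Nat.pos_of_ne_zero hk) (by omega)
    refine (Set.infinite_range_of_injective hinj).mono ?_
    rintro _ ⟨n, rfl⟩
    have h1 := e0 (k * n + (k - 1) * N)
    rw [hzero, mul_zero] at h1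
    exact (mul_eq_zero.1 h1.symm).resolve_right (pow_ne_zero _ hj0)
  have hall : u 0 = 0 := by
    have h1 := e0 0
    rw [hρ, Polynomial.eval_zero, zero_mul] at h1
    exact (mul_eq_zero.1 h1).resolve_left (pow_ne_zero _ hj0)
  rw [hu] at hall
  beta_reduce at hall
  simp only [hev, Finsupp.single_zero, add_zero, zero_add, smul_smul] at hall
  rw [← smul_smul, neg_one_smul, ← sub_eq_add_neg, sub_eq_zero] at hall
  exact hall.symm

/-- **The functional equations of `I ^ k` give functional equations of `I`.** -/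
theorem fe_pow (k : ℕ) (hk : k ≠ 0) (f : ι → MvPolynomial σ ℂ) (hf : ∃ j, f j ≠ 0)
    (b : Polynomial ℂ) (hb : IsFunctionalEq (fun J : Fin k → ι => ∏ i, f (J i)) b) :
    ∃ N : ℕ, IsFunctionalEq f (descPochhammer ℂ N *
      b.comp (Polynomial.C ((k : ℂ)⁻¹) * Polynomial.X)) := by
  classical
  have hkC : (k : ℂ) ≠ 0 := by exact_mod_cast hk
  obtain ⟨j0, hj0⟩ := hf
  obtain ⟨L, iL, d, e, m, R, hd, he, h⟩ := pow_ident k f b hb
  set M : ℕ := ∑ l, m l with hM
  have hmM : ∀ l, m l ≤ M := fun l => Finset.single_le_sum (fun _ _ => Nat.zero_le _)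
    (Finset.mem_univ l)
  set w0 : Polynomial ℂ := Polynomial.C ((k : ℂ)⁻¹) * Polynomial.X with hw0
  set p : L → Polynomial ℂ := fun l => (descPochhammer ℂ (m l)).comp w0 *
    (descPochhammer ℂ (k * M - k * m l)).comp
      (Polynomial.X - Polynomial.C ((k * m l : ℕ) : ℂ)) with hp
  have hw : ∀ S : ℕ, w0.eval ((k * S : ℕ) : ℂ) = S := by
    intro S
    rw [hw0, Polynomial.eval_mul, Polynomial.eval_C, Polynomial.eval_X, Nat.cast_mul,
      inv_mul_cancel_left₀ hkC]
  refine ⟨k * M, fe_of_nf f _ (fun l => Polynomial.aeval (∑ j, X j) (p l)) d e R (fun l => ?_)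
    fun n => ?_⟩
  · rw [hd, he, mul_add, mul_one]
    have := Nat.one_le_iff_ne_zero.2 hk
    omega
  · have hev : ∀ q : Polynomial ℂ, evN n (Polynomial.aeval (∑ j, X j : MvPolynomial ι ℂ) q) =
        q.eval ((∑ j, n j : ℕ) : ℂ) := by
      intro q
      rw [evN, Polynomial.aeval_def, Polynomial.hom_eval₂, Polynomial.eval]
      congr 1
      · ext x
        simp
      · simp
    simp only [hev]
    refine dense k hk f j0 hj0 _ p d e R (fun S s hs => ?_) n
    have hfact : (((k * S).factorial : ℕ) : ℂ) ≠ 0 := by exact_mod_cast Nat.factorial_ne_zero _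
    refine smul_right_injective (MvPolynomial σ ℂ) hfact ?_
    beta_reduce
    rw [hs, Polynomial.eval_mul, descPochhammer_eval_eq_descFactorial, Polynomial.eval_comp, hw,
      smul_smul]
    have h1 := congrArg (fun x => (((k * S).descFactorial (k * M) : ℕ) : ℂ) • x) (h S s hs)
    beta_reduce at h1
    rw [smul_smul, Finset.smul_sum] at h1
    have e1 : (((k * S).factorial : ℕ) : ℂ) * ((((k * S).descFactorial (k * M) : ℕ) : ℂ) *
        b.eval (S : ℂ)) = (((k * S).descFactorial (k * M) : ℕ) : ℂ) *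
          (b.eval (S : ℂ) * (((k * S).factorial : ℕ) : ℂ)) := by ring
    rw [e1, h1, Finset.smul_sum]
    refine Finset.sum_congr rfl fun l _ => ?_
    rw [smul_smul, smul_smul]
    congr 1
    rw [hp]
    beta_reduce
    rw [Polynomial.eval_mul, Polynomial.eval_comp, Polynomial.eval_comp, hw,
      descPochhammer_eval_eq_descFactorial]
    by_cases hS : m l ≤ S
    · have hle : k * m l ≤ k * S := Nat.mul_le_mul_left k hS
      have hle2 : k * m l ≤ k * M := Nat.mul_le_mul_left k (hmM l)
      rw [Polynomial.eval_sub, Polynomial.eval_X, Polynomial.eval_C, ← Nat.cast_sub hle,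
        descPochhammer_eval_eq_descFactorial]
      have e2 : (k * S).descFactorial (k * M) = (k * S).descFactorial (k * m l) *
          (k * S - k * m l).descFactorial (k * M - k * m l) := by
        rw [← desc_add, Nat.add_sub_cancel' hle2]
      have e3 : (k * S).factorial = (k * (S - m l)).factorial *
          (k * S).descFactorial (k * m l) := by
        rw [Nat.mul_sub]
        exact (Nat.factorial_mul_descFactorial hle).symm
      rw [e2, e3]
      push_cast
      ring
    · have e2 : S.descFactorial (m l) = 0 := Nat.descFactorial_eq_zero_iff_lt.2 (by omega)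
      rw [e2]
      simp

theorem descPoch_root (N : ℕ) (r : ℂ) (hr : ∀ n : ℕ, (n : ℂ) ≠ r) :
    ¬ (Polynomial.X - Polynomial.C r) ∣ descPochhammer ℂ N := by
  intro h
  rw [Polynomial.dvd_iff_isRoot, Polynomial.IsRoot.def] at h
  induction N with
  | zero =>
    rw [descPochhammer_zero, Polynomial.eval_one] at h
    exact one_ne_zero h
  | succ N ih =>
    rw [descPochhammer_succ_right, Polynomial.eval_mul, mul_eq_zero] at h
    rcases h with h | h
    · exact ih h
    · rw [Polynomial.eval_sub, Polynomial.eval_X, Polynomial.eval_natCast, sub_eq_zero] at h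
      exact hr N h.symm

/-- **The multiplicities of the roots of a power of an ideal.** -/
theorem fm_pow (k : ℕ) (hk : k ≠ 0) (f : ι → MvPolynomial σ ℂ) (hf : ∃ j, f j ≠ 0) (r : ℂ)
    (m : ℕ) (h : FM f (k * r) m) (hr : ∀ n : ℕ, (n : ℂ) ≠ k * r) :
    FM (fun J : Fin k → ι => ∏ i, f (J i)) r m := by
  classical
  have hkC : (k : ℂ) ≠ 0 := by exact_mod_cast hk
  intro b hb
  obtain ⟨N, h1⟩ := fe_pow k hk f hf b hb
  exact dvd_of_comp b k hkC r m ((Polynomial.prime_X_sub_C _).pow_dvd_of_dvd_mul_left _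
    (descPoch_root N _ hr) (h _ h1))

end

end Pool.Agent.L5helper20.MQ
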