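import Pool.Agent.L5helper20.MQ.Ord
import Pool.Agent.L5helper20.MQ.PowB
import Pool.Agent.R852.TP.Fin

set_option autoImplicit false
set_option linter.unusedSectionVars false
set_option linter.unusedVariables false

/-! # The stronger form of the strong monodromy conjecture: the closure under operations -/

namespace Pool.Agent.L5helper20.MQ

open Polynomial Pool.Agent.W574.SM Pool.Agent.W574.CN Pool.Agent.W574.RO Pool.Agent.Y229
open Pool.Agent.W574.HS Pool.Agent.Y230.PS Pool.Agent.Y230.TH Pool.Agent.R852.TP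
open Pool.Agent.R852.PP
open Pool.Agent.Y230.PL (tt tt_mem)

/-- the power of an ideal -/
@[reducible] noncomputable def powFam (A : Fam) (k : ℕ) : Fam :=
  ⟨A.σ, Fin k → A.ι, fun J => ∏ i, A.f (J i)⟩

/-- the properties of the members of the class -/
structure Strong (A : Fam) (Z : RatFunc ℂ) : Prop where
  fin : Finite A.σ
  ne : ∃ j, A.f j ≠ 0
  neg : ∀ s : ℂ, Z.denom.eval s = 0 → s.re < 0
  poly : ∀ b : ℂ[X], IsFunctionalEq A.f b → ∃ P : ℂ[X],
    algebraMap ℂ[X] (RatFunc ℂ) b * Z = algebraMap ℂ[X] (RatFunc ℂ) P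

theorem Strong.fm {A : Fam} {Z : RatFunc ℂ} (h : Strong A Z) (s : ℂ) : FM A.f s (ro s Z) := by
  intro b hb
  obtain ⟨P, hP⟩ := h.poly b hb
  exact dvd_of_poly b P Z hP s

theorem strong_of_fm {A : Fam} {Z : RatFunc ℂ} (h1 : Finite A.σ) (h2 : ∃ j, A.f j ≠ 0)
    (h3 : ∀ s : ℂ, Z.denom.eval s = 0 → s.re < 0)
    (h : ∀ s : ℂ, s.re < 0 → FM A.f s (ro s Z)) : Strong A Z :=
  ⟨h1, h2, h3, fun b hb => poly_of_dvd b Z fun s => by
    by_cases hs : s.re < 0
    · exact h s hs b hb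
    · have h4 : ro s Z = 0 := ro_zero fun h0 => hs (h3 s h0)
      rw [h4, pow_zero]
      exact one_dvd _⟩

theorem fm_zero {σ ι : Type} [Fintype ι] (f : ι → MvPolynomial σ ℂ) (r : ℂ) : FM f r 0 :=
  fun b _ => by
    rw [pow_zero]
    exact one_dvd _

theorem not_nat {s : ℂ} (h : s.re < 0) (N : ℕ) : (N : ℂ) ≠ s := by
  rintro rfl
  rw [Complex.natCast_re] at h
  exact absurd h (not_lt.2 (Nat.cast_nonneg N))

/-- sums -/
theorem strong_sum (A B : Fam) (Z W : RatFunc ℂ) (v w : ℂ × ℕ →₀ ℂ)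
    (hv : 1 - Z = RatFunc.X * lap v) (hw : 1 - W = RatFunc.X * lap w)
    (hv0 : ∀ p ∈ v.support, p.1 ≠ 0) (hw0 : ∀ p ∈ w.support, p.1 ≠ 0) (hA : Strong A Z)
    (hB : Strong B W) : Strong (A.sum B) (1 - RatFunc.X * lap2 v w) := by
  classical
  have := hA.fin
  have := hB.fin
  refine strong_of_fm (inferInstanceAs (Finite (A.σ ⊕ B.σ))) ?_ (fun s hs => ?_) fun s hs => ?_
  · obtain ⟨j, hj⟩ := hA.ne
    refine ⟨Sum.inl j, ?_⟩
    change MvPolynomial.rename Sum.inl (A.f j) ≠ 0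
    rw [Ne, map_eq_zero_iff _ (MvPolynomial.rename_injective _ Sum.inl_injective)]
    exact hj
  · obtain ⟨p, hp, q, hq, rfl⟩ := lap2_pole v w s hs
    have h1 := hA.neg _ (pole_of_exp Z v hv hv0 p hp)
    have h2 := hB.neg _ (pole_of_exp W w hw hw0 q hq)
    rw [Complex.add_re]
    exact add_neg h1 h2
  · have hle : ro s (1 - RatFunc.X * lap2 v w) ≤ pairOrd v w s := by
      refine ro_le ?_
      have e : tt s ^ pairOrd v w s * (1 - RatFunc.X * lap2 v w) = tt s ^ pairOrd v w s -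
          RatFunc.X * (tt s ^ pairOrd v w s * lap2 v w) := by ring
      rw [e]
      exact (Reg s).sub_mem ((Reg s).pow_mem (tt_mem s) _)
        ((Reg s).mul_mem (X_reg s) (lap2_order v w s))
    refine FM.mono ?_ hle
    rcases pairOrd_spec v w s with h0 | ⟨p, hp, q, hq, rfl, h0⟩
    · rw [h0]
      exact fm_zero _ _
    · have h1 := order_of_exp 1 Z (fun s => (Reg s).one_mem) v 0
        (by rw [map_zero, sub_zero]; exact hv) hv0 p hp
      have h2 := order_of_exp 1 W (fun s => (Reg s).one_mem) w 0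
        (by rw [map_zero, sub_zero]; exact hw) hw0 q hq
      have h3 : FM (A.sum B).f (-p.1 + -q.1) (p.2 + 1 + (q.2 + 1) - 1) :=
        FM_sum A.f B.f _ _ _ _ (Nat.succ_pos _) (Nat.succ_pos _) ((hA.fm _).mono h1)
          ((hB.fm _).mono h2)
      refine h3.mono ?_
      rw [h0]
      omega

theorem pole_mul (Z W : RatFunc ℂ) (s : ℂ) (hs : (Z * W).denom.eval s = 0) :
    Z.denom.eval s = 0 ∨ W.denom.eval s = 0 := by
  by_contra hne
  push Not at hne
  exact Reg_denom s _ ((Reg s).mul_mem (mem_Reg_of_denom _ _ hne.1)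
    (mem_Reg_of_denom _ _ hne.2)) hs

theorem ro_mul (Z W : RatFunc ℂ) (s : ℂ) : ro s (Z * W) ≤ ro s Z + ro s W := by
  refine ro_le ?_
  have e : tt s ^ (ro s Z + ro s W) * (Z * W) = (tt s ^ ro s Z * Z) * (tt s ^ ro s W * W) := by
    rw [pow_add]
    ring
  rw [e]
  exact (Reg s).mul_mem (tt_ro s Z) (tt_ro s W)

/-- products -/
theorem strong_mul (A B : Fam) (Z W : RatFunc ℂ) (hA : Strong A Z) (hB : Strong B W) :
    Strong (A.mul B) (Z * W) := by
  classical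
  have := hA.fin
  have := hB.fin
  refine strong_of_fm (inferInstanceAs (Finite (A.σ ⊕ B.σ))) ?_ (fun s hs => ?_) fun s hs => ?_
  · obtain ⟨j, hj⟩ := hA.ne
    obtain ⟨k, hk⟩ := hB.ne
    refine ⟨(j, k), ?_⟩
    change (MvPolynomial.rename Sum.inl (A.f j) * MvPolynomial.rename Sum.inr (B.f k) :
      MvPolynomial (A.σ ⊕ B.σ) ℂ) ≠ 0
    refine mul_ne_zero ?_ ?_
    · rw [Ne, map_eq_zero_iff _ (MvPolynomial.rename_injective _ Sum.inl_injective)]
      exact hj
    · rw [Ne, map_eq_zero_iff _ (MvPolynomial.rename_injective _ Sum.inr_injective)]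
      exact hk
  · rcases pole_mul Z W s hs with h | h
    · exact hA.neg s h
    · exact hB.neg s h
  · refine FM.mono ?_ (ro_mul Z W s)
    exact FM_mul A.f B.f hA.ne hB.ne s (not_nat hs) _ _ (hA.fm s) (hB.fm s)

theorem tt_neg_one : tt (-1) = RatFunc.X + 1 := by
  rw [tt_eq, neg_neg, map_one]

theorem ro_X1inv (Z : RatFunc ℂ) (s : ℂ) : ro s (Z * (RatFunc.X + 1)⁻¹) ≤ ro s Z + dl s := by
  refine ro_le ?_
  rw [dl_eq]
  split_ifs with h
  · subst h
    have e : tt (-1) ^ (ro (-1) Z + 1) * (Z * (RatFunc.X + 1)⁻¹) = tt (-1) ^ ro (-1) Z * Z := by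
      rw [pow_succ, tt_neg_one]
      have := X1_ne
      field_simp
    rw [e]
    exact tt_ro _ _
  · rw [add_zero, ← mul_assoc]
    exact (Reg s).mul_mem (tt_ro s Z) (X1_inv s h)

/-- universal linear forms -/
theorem strong_univ (A : Fam) (Z : RatFunc ℂ) (hA : Strong A Z) :
    Strong (univFam A) (Z * (RatFunc.X + 1)⁻¹) := by
  classical
  have := hA.fin
  refine strong_of_fm (inferInstanceAs (Finite (A.ι ⊕ A.σ))) ⟨0, univFam_ne A hA.ne⟩
    (fun s hs => ?_) fun s hs => ?_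
  · rcases pole_form Z s hs with h | rfl
    · exact hA.neg s h
    · norm_num
  · exact (fm_univ A hA.ne s _ (hA.fm s)).mono (ro_X1inv Z s)

theorem fac_tt (n : ℕ) (s : ℂ) (hn : (n : ℂ) * s + 1 = 0) : tt s * fac n 1 ∈ Reg s := by
  have hn0 : (n : ℂ) ≠ 0 := by
    intro h
    rw [h, zero_mul, zero_add] at hn
    exact one_ne_zero hn
  have hnR : (n : RatFunc ℂ) = RatFunc.C (n : ℂ) := by rw [map_natCast]
  have h1 : ((1 : ℕ) : RatFunc ℂ) + (n : RatFunc ℂ) * RatFunc.X = RatFunc.C (n : ℂ) * tt s := by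
    rw [tt_eq, hnR, mul_add, ← map_mul]
    have : (n : ℂ) * -s = 1 := by linear_combination -hn
    rw [this, map_one, Nat.cast_one]
    ring
  have h2 : tt s * fac n 1 = RatFunc.C (n : ℂ)⁻¹ := by
    rw [fac, h1]
    have h3 := tt_ne s
    have h4 : RatFunc.C (n : ℂ) ≠ 0 := by
      rw [Ne, map_eq_zero]
      exact hn0
    rw [map_inv₀]
    field_simp
  rw [h2]
  exact C_reg s _

section

variable {τ : Type} [Fintype τ]

theorem prod_fac_reg (a : τ → ℕ) (ha : ∀ t, 0 < a t) (s : ℂ) :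
    tt s ^ cntR a s * ∏ t, fac (a t) 1 ∈ Reg s := by
  classical
  have e : tt s ^ cntR a s * ∏ t, fac (a t) 1 = ∏ t, (if (∃ i ∈ Finset.range (a t),
      (a t : ℂ) * s + ((i + 1 : ℕ) : ℂ) = 0) then tt s * fac (a t) 1 else fac (a t) 1) := by
    have e1 : ∀ t, (if (∃ i ∈ Finset.range (a t),
      (a t : ℂ) * s + ((i + 1 : ℕ) : ℂ) = 0) then tt s * fac (a t) 1 else fac (a t) 1) =
        (if (∃ i ∈ Finset.range (a t),
      (a t : ℂ) * s + ((i + 1 : ℕ) : ℂ) = 0) then tt s else 1) * fac (a t) 1 := by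
      intro t
      split_ifs
      · rfl
      · rw [one_mul]
    rw [Finset.prod_congr rfl fun t _ => e1 t, Finset.prod_mul_distrib, Finset.prod_ite,
      Finset.prod_const, Finset.prod_const_one, mul_one]
    congr 2
  rw [e]
  refine Subring.prod_mem _ fun t _ => ?_
  by_cases h : (a t : ℂ) * s + 1 = 0
  · have h1 : ∃ i ∈ Finset.range (a t), (a t : ℂ) * s + ((i + 1 : ℕ) : ℂ) = 0 := by
      refine ⟨0, Finset.mem_range.2 (ha t), ?_⟩
      rw [zero_add, Nat.cast_one]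
      exact h
    rw [if_pos h1]
    exact fac_tt _ _ h
  · have h2 : fac (a t) 1 ∈ Reg s := fac_mem _ _ _ fun h3 => h (by
      push_cast at h3
      linear_combination h3)
    split_ifs
    · exact (Reg s).mul_mem (tt_mem s) h2
    · exact h2

/-- products of powers of linear forms -/
theorem strong_form [DecidableEq τ] [Nonempty τ] (σ : Type) (κ : τ → Type)
    [∀ t, Fintype (κ t)] (a : τ → ℕ) (ha : ∀ t, 0 < a t) (h : MvPolynomial σ ℂ)
    (f : (t : τ) → κ t → MvPolynomial σ ℂ) (Z : RatFunc ℂ) (hA : Strong (genFam a h f) Z) :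
    Strong (formFam a h f) (Z * ∏ t, fac (a t) 1) := by
  classical
  have hfin : Finite σ := hA.fin
  refine strong_of_fm (inferInstanceAs (Finite ((Σ t, κ t) ⊕ σ)))
    ⟨(0 : Fin 1), form_ne' a h f ha hA.ne⟩ (fun s hs => ?_) fun s hs => ?_
  · rcases prod_fac_pole a ha Z s hs with h1 | ⟨t, h1⟩
    · exact hA.neg s h1
    · rw [h1]
      have h2 : (0 : ℝ) < a t := by exact_mod_cast ha t
      have h3 : (-(1 + ((0 : ℕ) : ℂ)) / (a t : ℂ)) = (((-1 / (a t : ℝ)) : ℝ) : ℂ) := by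
        push_cast
        ring
      rw [h3, Complex.ofReal_re]
      exact div_neg_of_neg_of_pos (by norm_num) h2
  · refine (fm_form a h f ha hA.ne s _ (hA.fm s)).mono (ro_le ?_)
    have e : tt s ^ (ro s Z + cntR a s) * (Z * ∏ t, fac (a t) 1) =
        (tt s ^ ro s Z * Z) * (tt s ^ cntR a s * ∏ t, fac (a t) 1) := by
      rw [pow_add]
      ring
    rw [e]
    exact (Reg s).mul_mem (tt_ro s Z) (prod_fac_reg a ha s)

end

/-- the orders at `-1` -/
theorem ro_ref (W : RatFunc ℂ) (s : ℂ) (n : ℕ) (h : n + 1 ≤ ro s ((RatFunc.X + 1) * W)) :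
    n + 1 + dl s ≤ ro s W := by
  rw [dl_eq]
  split_ifs with hs
  · subst hs
    by_contra hlt
    have h1 : ro (-1) W ≤ n + 1 := by omega
    have h2 := reg_of_ro h1
    have e : tt (-1) ^ (n + 1) * W = tt (-1) ^ n * ((RatFunc.X + 1) * W) := by
      rw [pow_succ, ← tt_neg_one]
      ring
    rw [e] at h2
    have h3 := ro_le h2
    omega
  · refine h.trans (ro_le ?_)
    have e : tt s ^ ro s W * ((RatFunc.X + 1) * W) = (RatFunc.X + 1) * (tt s ^ ro s W * W) := by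
      ring
    rw [e]
    exact (Reg s).mul_mem (X1_reg s) (tt_ro s W)

/-- Thom-Sebastiani sums -/
theorem strong_ts (A : Fam) (τ : Type) (g : MvPolynomial τ ℂ) (Z W : RatFunc ℂ)
    (v w : ℂ × ℕ →₀ ℂ) (c : ℂ) (hv : 1 - Z = RatFunc.X * lap v)
    (hw : 1 - (RatFunc.X + 1) * W = RatFunc.X * (lap w - RatFunc.C c))
    (hv0 : ∀ p ∈ v.support, p.1 ≠ 0) (hw0 : ∀ p ∈ w.support, p.1 ≠ 0)
    (hA : Strong A Z) (hg : Strong ⟨τ, Fin 1, fun _ => g⟩ W) :
    Strong (tsFam A τ g)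
        ((1 - RatFunc.X * (lap2 v w - RatFunc.C (c * val0 v))) * (RatFunc.X + 1)⁻¹) := by
  classical
  have hfA := hA.fin
  have hfg : Finite τ := hg.fin
  have hneA := hA.ne
  have hg0 : g ≠ 0 := by
    obtain ⟨j, hj⟩ := hg.ne
    exact hj
  have hordW : ∀ q ∈ w.support, q.2 + 1 ≤ ro (-q.1) ((RatFunc.X + 1) * W) := fun q hq =>
    order_of_exp 1 _ (fun s => (Reg s).one_mem) w c hw hw0 q hq
  have hordZ : ∀ p ∈ v.support, p.2 + 1 ≤ ro (-p.1) Z := fun p hp =>
    order_of_exp 1 Z (fun s => (Reg s).one_mem) v 0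
      (by rw [map_zero, sub_zero]; exact hv) hv0 p hp
  set Q := 1 - RatFunc.X * (lap2 v w - RatFunc.C (c * val0 v)) with hQ
  have hle : ∀ s, ro s Q ≤ pairOrd v w s := by
    intro s
    refine ro_le ?_
    have e : tt s ^ pairOrd v w s * Q = tt s ^ pairOrd v w s -
        RatFunc.X * (tt s ^ pairOrd v w s * lap2 v w) +
        tt s ^ pairOrd v w s * (RatFunc.X * RatFunc.C (c * val0 v)) := by
      rw [hQ]
      ring
    rw [e]
    exact (Reg s).add_mem ((Reg s).sub_mem ((Reg s).pow_mem (tt_mem s) _)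
      ((Reg s).mul_mem (X_reg s) (lap2_order v w s)))
      ((Reg s).mul_mem ((Reg s).pow_mem (tt_mem s) _) ((Reg s).mul_mem (X_reg s) (C_reg s _)))
  refine strong_of_fm (inferInstanceAs (Finite ((A.ι ⊕ A.σ) ⊕ τ)))
    ⟨0, tsFam_ne A τ g hg0⟩ (fun s hs => ?_) fun s hs => ?_
  · rcases pole_form Q s hs with h | rfl
    · have h1 : 0 < pairOrd v w s := by
        refine lt_of_lt_of_le (Nat.pos_of_ne_zero fun h0 => ?_) (hle s)
        rw [ro, rootMultiplicity_eq_zero_iff] at h0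
        exact Q.denom_ne_zero (h0 h)
      rcases pairOrd_spec v w s with h0 | ⟨p, hp, q, hq, rfl, h0⟩
      · omega
      · have h2 := hA.neg _ (pole_of_ro (lt_of_lt_of_le (Nat.succ_pos _) (hordZ p hp)))
        have h3 : q.2 + 1 ≤ ro (-q.1) W :=
          (Nat.le_add_right _ _).trans (ro_ref W _ _ (hordW q hq))
        have h4 := hg.neg _ (pole_of_ro (lt_of_lt_of_le (Nat.succ_pos _) h3))
        rw [Complex.add_re]
        exact add_neg h2 h4
    · norm_num
  · refine FM.mono ?_ ((ro_X1inv Q s).trans (Nat.add_le_add_right (hle s) _))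
    intro b hb
    obtain ⟨b', rfl, h7⟩ := fm_ts A τ g hneA hg0 b hb
    have hdl : (X - C s) ^ dl s ∣ (X + 1 : ℂ[X]) := by
      rw [dl_eq]
      split_ifs with h9
      · rw [pow_one, X_add_one, h9]
      · rw [pow_zero]
        exact one_dvd _
    rw [pow_add, mul_comm]
    refine mul_dvd_mul hdl ?_
    rcases pairOrd_spec v w s with h0 | ⟨p, hp, q, hq, rfl, h0⟩
    · rw [h0, pow_zero]
      exact one_dvd _
    · have h8 := h7 (-p.1) (-q.1) (p.2 + 1) (q.2 + 1) (Nat.succ_pos _) (Nat.succ_pos _)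
        ((hA.fm _).mono (hordZ p hp)) ((hg.fm _).mono (ro_ref W _ _ (hordW q hq)))
      refine (pow_dvd_pow _ ?_).trans h8
      rw [h0]
      omega

theorem alg_comp_ne (k : ℕ) (hk : k ≠ 0) (q : ℂ[X]) (hq : q ≠ 0) :
    algebraMap ℂ[X] (RatFunc ℂ) (q.comp (C (k : ℂ) * X)) ≠ 0 :=
  RatFunc.algebraMap_ne_zero (comp_ne k hk q hq)

/-- the order of the pole of `Z(k s)` -/
theorem ro_scale (k : ℕ) (hk : k ≠ 0) (p q : ℂ[X]) (hq : q ≠ 0) (s : ℂ) :
    ro s (algebraMap ℂ[X] (RatFunc ℂ) (p.comp (C (k : ℂ) * X)) /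
      algebraMap ℂ[X] (RatFunc ℂ) (q.comp (C (k : ℂ) * X))) ≤
    ro (k * s) (algebraMap ℂ[X] (RatFunc ℂ) p / algebraMap ℂ[X] (RatFunc ℂ) q) := by
  have hkC : (k : ℂ) ≠ 0 := by exact_mod_cast hk
  set Z := algebraMap ℂ[X] (RatFunc ℂ) p / algebraMap ℂ[X] (RatFunc ℂ) q with hZ
  set n := ro (k * s) Z with hn
  have hd : Z.denom ≠ 0 := Z.denom_ne_zero
  have hq' : algebraMap ℂ[X] (RatFunc ℂ) q ≠ 0 := RatFunc.algebraMap_ne_zero hq
  have hd' : algebraMap ℂ[X] (RatFunc ℂ) Z.denom ≠ 0 := RatFunc.algebraMap_ne_zero hd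
  have h1 : p * Z.denom = Z.num * q := by
    apply RatFunc.algebraMap_injective ℂ
    rw [map_mul, map_mul]
    have h2 := Z.num_div_denom
    rw [hZ, div_eq_div_iff hd' hq', ← hZ] at h2
    rw [h2]
  obtain ⟨u, hu, hu2⟩ := exists_eq_pow_rootMultiplicity_mul_and_not_dvd Z.denom hd (k * s)
  refine ro_le ⟨C ((k : ℂ)⁻¹ ^ n) * Z.num.comp (C (k : ℂ) * X), u.comp (C (k : ℂ) * X), ?_, ?_⟩
  · rw [eval_comp, eval_mul, eval_C, eval_X]
    exact fun h => hu2 (dvd_iff_isRoot.2 h)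
  · have h3 := alg_comp_ne k hk q hq
    have hu0 : u ≠ 0 := by
      rintro rfl
      exact hu2 (dvd_zero _)
    have h4 := alg_comp_ne k hk u hu0
    have h5 : Z.denom.comp (C (k : ℂ) * X) = C ((k : ℂ) ^ n) * (X - C s) ^ n *
        u.comp (C (k : ℂ) * X) := by
      conv_lhs => rw [hu]
      rw [mul_comp, pow_comp, sub_comp, X_comp, C_comp, C_mul, ← mul_sub, mul_pow, C_pow]
      rfl
    have h6 := congrArg (fun P : ℂ[X] => algebraMap ℂ[X] (RatFunc ℂ)
      (P.comp (C (k : ℂ) * X))) h1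
    beta_reduce at h6
    rw [mul_comp, mul_comp, h5, map_mul, map_mul, map_mul, map_mul] at h6
    have h7 : tt s ^ n = algebraMap ℂ[X] (RatFunc ℂ) ((X - C s) ^ n) := by
      rw [map_pow]
      rfl
    have h8 : algebraMap ℂ[X] (RatFunc ℂ) (C ((k : ℂ)⁻¹ ^ n)) *
        algebraMap ℂ[X] (RatFunc ℂ) (C ((k : ℂ) ^ n)) = 1 := by
      rw [← map_mul, ← C_mul, ← mul_pow, inv_mul_cancel₀ hkC, one_pow, C_1, map_one]
    rw [h7, mul_div_assoc', div_eq_div_iff h3 h4, map_mul]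
    linear_combination (algebraMap ℂ[X] (RatFunc ℂ) (C ((k : ℂ)⁻¹ ^ n))) * h6 -
      (algebraMap ℂ[X] (RatFunc ℂ) ((X - C s) ^ n) *
        algebraMap ℂ[X] (RatFunc ℂ) (p.comp (C (k : ℂ) * X)) *
        algebraMap ℂ[X] (RatFunc ℂ) (u.comp (C (k : ℂ) * X))) * h8

/-- powers of ideals -/
theorem strong_pow (A : Fam) (k : ℕ) (hk : k ≠ 0) (p q : ℂ[X]) (hq : q ≠ 0)
    (hA : Strong A (algebraMap ℂ[X] (RatFunc ℂ) p / algebraMap ℂ[X] (RatFunc ℂ) q)) :
    Strong (powFam A k) (algebraMap ℂ[X] (RatFunc ℂ) (p.comp (C (k : ℂ) * X)) /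
      algebraMap ℂ[X] (RatFunc ℂ) (q.comp (C (k : ℂ) * X))) := by
  classical
  have hk0 : (0 : ℝ) < k := by exact_mod_cast Nat.pos_of_ne_zero hk
  have hre : ∀ s : ℂ, ((k : ℂ) * s).re < 0 ↔ s.re < 0 := by
    intro s
    have e : ((k : ℂ) * s).re = k * s.re := by
      rw [← Complex.ofReal_natCast, Complex.re_ofReal_mul]
    rw [e]
    constructor
    · intro h
      by_contra h1
      exact absurd h (not_lt.2 (mul_nonneg hk0.le (not_lt.1 h1)))
    · exact fun h => mul_neg_of_pos_of_neg hk0 h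
  refine strong_of_fm hA.fin ?_ (fun s hs => ?_) fun s hs => ?_
  · obtain ⟨j, hj⟩ := hA.ne
    refine ⟨fun _ => j, ?_⟩
    change ∏ _i : Fin k, A.f j ≠ 0
    exact Finset.prod_ne_zero_iff.2 fun i _ => hj
  · exact (hre s).1 (hA.neg _ (pole_scale k hk p q hq s hs))
  · exact fm_pow k hk A.f hA.ne s _ ((hA.fm _).mono (ro_scale k hk p q hq s))
      (not_nat ((hre s).2 hs))

/-- variables which do not occur -/
theorem strong_drop (σ κ : Type) (g : MvPolynomial σ ℂ) (Z : RatFunc ℂ)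
    (h : Strong ⟨σ ⊕ κ, Fin 1, fun _ => MvPolynomial.rename Sum.inl g⟩ Z) :
    Strong ⟨σ, Fin 1, fun _ => g⟩ Z := by
  have hf : Finite (σ ⊕ κ) := h.fin
  have hf' : Finite σ := Finite.of_injective (Sum.inl : σ → σ ⊕ κ) Sum.inl_injective
  refine strong_of_fm hf' ⟨(0 : Fin 1), fun h0 => ?_⟩ h.neg fun s hs => ?_
  · obtain ⟨j, hj⟩ := h.ne
    apply hj
    have h1 : g = 0 := h0
    change MvPolynomial.rename Sum.inl g = 0
    rw [h1, map_zero]
  · exact fm_drop (κ := κ) g _ _ (h.fm s)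

theorem strong_equiv (A B : Fam) (i : A.σ ≃ B.σ) (k : A.ι ≃ B.ι)
    (h : ∀ j, B.f (k j) = MvPolynomial.rename i (A.f j)) (Z : RatFunc ℂ) (hA : Strong A Z) :
    Strong B Z := by
  have hf := hA.fin
  refine strong_of_fm (Finite.of_equiv A.σ i) ?_ hA.neg fun s _ => fm_equiv A B i k h _ _ (hA.fm s)
  obtain ⟨j, hj⟩ := hA.ne
  refine ⟨k j, ?_⟩
  rw [h, Ne, map_eq_zero_iff _ (MvPolynomial.rename_injective _ i.injective)]
  exact hj

end Pool.Agent.L5helper20.MQ
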