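import Pool.Agent.W574.HS.Conv

set_option autoImplicit false
set_option linter.unusedSectionVars false

/-! # Functional equations in terms of falling factorials -/

namespace Pool.Agent.L5helper20.MQ

open MvPolynomial Pool.Agent.W574.SM Pool.Agent.W574.HS

section

variable {σ ι : Type} [Fintype ι] [DecidableEq ι]

/-- `∏ f_j ^ n_j` -/
def pw {M : Type} [CommMonoid M] (f : ι → M) (n : ι →₀ ℕ) : M := ∏ j, f j ^ n j

theorem pw_add {M : Type} [CommMonoid M] (f : ι → M) (m n : ι →₀ ℕ) :
    pw f (m + n) = pw f m * pw f n := by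
  unfold pw
  rw [← Finset.prod_mul_distrib]
  exact Finset.prod_congr rfl fun j _ => by rw [Finsupp.add_apply, pow_add]

theorem pw_zero {M : Type} [CommMonoid M] (f : ι → M) : pw f 0 = 1 := by
  unfold pw
  exact Finset.prod_eq_one fun j _ => by rw [Finsupp.zero_apply, pow_zero]

/-- the multi-index falling factorial -/
def df (n d : ι →₀ ℕ) : ℕ := ∏ j, (n j).descFactorial (d j)

theorem desc_add (n a b : ℕ) :
    n.descFactorial (a + b) = n.descFactorial a * (n - a).descFactorial b := by
  induction b with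
  | zero => simp
  | succ b ih =>
    rw [← add_assoc, Nat.descFactorial_succ, ih, Nat.descFactorial_succ, Nat.sub_sub]
    ring

theorem df_add (n d e : ι →₀ ℕ) : df n (d + e) = df n d * df (n - d) e := by
  unfold df
  rw [← Finset.prod_mul_distrib]
  refine Finset.prod_congr rfl fun j _ => ?_
  rw [Finsupp.add_apply, desc_add, Finsupp.tsub_apply]

theorem df_single (n : ι →₀ ℕ) (j : ι) : df n (Finsupp.single j 1) = n j := by
  unfold df
  rw [Finset.prod_eq_single j]
  · simp
  · intro k _ hk
    rw [Finsupp.single_eq_of_ne hk]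
    simp
  · simp

theorem df_zero' (n : ι →₀ ℕ) : df n 0 = 1 := by
  unfold df
  exact Finset.prod_eq_one fun j _ => by rw [Finsupp.zero_apply, Nat.descFactorial_zero]

theorem df_ne (n d : ι →₀ ℕ) : df n d ≠ 0 ↔ d ≤ n := by
  unfold df
  rw [Finset.prod_ne_zero_iff, Finsupp.le_def]
  constructor
  · intro h j
    have := h j (Finset.mem_univ j)
    rw [Ne, Nat.descFactorial_eq_zero_iff_lt, not_lt] at this
    exact this
  · intro h j _
    rw [Ne, Nat.descFactorial_eq_zero_iff_lt, not_lt]
    exact h j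

/-- normal forms -/
def NF (f : ι → MvPolynomial σ ℂ) (E : (ι →₀ ℕ) → MvPolynomial σ ℂ) : Prop :=
  ∃ (L : Type) (_ : Fintype L) (d e : L → ι →₀ ℕ) (R : L → weyl σ),
    (∀ l, ∑ j, e l j = ∑ j, d l j + 1) ∧
    ∀ n : ι →₀ ℕ, E n = ∑ l, (df n (d l) : ℂ) •
      (R l : Module.End ℂ (MvPolynomial σ ℂ)) (pw f (n - d l + e l))

theorem nf_zero (f : ι → MvPolynomial σ ℂ) : NF f fun _ => 0 :=
  ⟨Empty, inferInstance, fun k => k.elim, fun k => k.elim, fun k => k.elim, fun k => k.elim,
    fun n => by simp⟩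

theorem nf_add {f : ι → MvPolynomial σ ℂ} {E E' : (ι →₀ ℕ) → MvPolynomial σ ℂ} (h : NF f E)
    (h' : NF f E') : NF f fun n => E n + E' n := by
  obtain ⟨L, i1, d, e, R, h1, h2⟩ := h
  obtain ⟨L', i1', d', e', R', h1', h2'⟩ := h'
  refine ⟨L ⊕ L', inferInstance, Sum.elim d d', Sum.elim e e', Sum.elim R R', ?_, fun n => ?_⟩
  · rintro (l | l)
    · exact h1 l
    · exact h1' l
  · beta_reduce
    rw [Fintype.sum_sum_type, h2, h2']
    rfl

theorem nf_sum {f : ι → MvPolynomial σ ℂ} {K : Type} (s : Finset K)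
    (E : K → (ι →₀ ℕ) → MvPolynomial σ ℂ) (h : ∀ k ∈ s, NF f (E k)) :
    NF f fun n => ∑ k ∈ s, E k n := by
  classical
  induction s using Finset.induction_on with
  | empty => simpa using nf_zero f
  | insert k s hk ih =>
    have := nf_add (h k (Finset.mem_insert_self k s))
      (ih fun l hl => h l (Finset.mem_insert_of_mem hl))
    simpa [Finset.sum_insert hk] using this

theorem nf_smul {f : ι → MvPolynomial σ ℂ} {E : (ι →₀ ℕ) → MvPolynomial σ ℂ} (h : NF f E)
    (a : ℂ) : NF f fun n => a • E n := by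
  obtain ⟨L, i1, d, e, R, h1, h2⟩ := h
  refine ⟨L, i1, d, e, fun l => a • R l, h1, fun n => ?_⟩
  beta_reduce
  rw [h2, Finset.smul_sum]
  refine Finset.sum_congr rfl fun l _ => ?_
  change _ = _ • (a • (R l : Module.End ℂ (MvPolynomial σ ℂ)) _)
  rw [smul_comm]

theorem nf_term (f : ι → MvPolynomial σ ℂ) (Q : weyl σ) (p : MvPolynomial ι ℂ) :
    ∀ d e : ι →₀ ℕ, ∑ j, e j = ∑ j, d j + 1 → NF f fun n => (evN n p * (df n d : ℂ)) •
      (Q : Module.End ℂ (MvPolynomial σ ℂ)) (pw f (n - d + e)) := by
  induction p using MvPolynomial.induction_on with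
  | C a =>
    intro d e hde
    refine ⟨Unit, inferInstance, fun _ => d, fun _ => e, fun _ => a • Q, fun _ => hde,
      fun n => ?_⟩
    have e1 : evN n (C a : MvPolynomial ι ℂ) = a := by simp [evN]
    beta_reduce
    rw [Finset.univ_unique, Finset.sum_singleton, e1, mul_comm, mul_smul]
    rfl
  | add p q hp hq =>
    intro d e hde
    have h := nf_add (hp d e hde) (hq d e hde)
    refine Eq.mp ?_ h
    congr 1
    funext n
    rw [← add_smul, ← add_mul]
    congr 2
    simp [evN]
  | mul_X p j hp =>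
    intro d e hde
    have hde' : ∑ i, (e + Finsupp.single j 1 : ι →₀ ℕ) i =
        ∑ i, (d + Finsupp.single j 1 : ι →₀ ℕ) i + 1 := by
      have h1 : ∀ g : ι →₀ ℕ, ∑ i, (g + Finsupp.single j 1 : ι →₀ ℕ) i = ∑ i, g i + 1 := by
        intro g
        simp only [Finsupp.add_apply, Finset.sum_add_distrib]
        congr 1
        rw [Finset.sum_eq_single j]
        · simp
        · intro k _ hk
          exact Finsupp.single_eq_of_ne hk
        · simp
      rw [h1, h1, hde]
    have h := nf_add (hp _ _ hde') (nf_smul (hp d e hde) (d j : ℂ))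
    refine Eq.mp ?_ h
    congr 1
    funext n
    have e1 : evN n (p * X j) = evN n p * (n j : ℂ) := by simp [evN]
    have e2 : (df n (d + Finsupp.single j 1) : ℂ) •
        (Q : Module.End ℂ (MvPolynomial σ ℂ))
          (pw f (n - (d + Finsupp.single j 1) + (e + Finsupp.single j 1))) =
        (df n (d + Finsupp.single j 1) : ℂ) •
        (Q : Module.End ℂ (MvPolynomial σ ℂ)) (pw f (n - d + e)) := by
      by_cases h0 : df n (d + Finsupp.single j 1) = 0
      · rw [h0, Nat.cast_zero, zero_smul, zero_smul]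
      · have h1 := (df_ne _ _).1 h0
        congr 3
        ext i
        have h2 := h1 i
        rw [Finsupp.add_apply] at h2
        simp only [Finsupp.add_apply, Finsupp.tsub_apply]
        omega
    have e3 : ((df n d : ℂ)) * (n j : ℂ) = (df n (d + Finsupp.single j 1) : ℂ) +
        (d j : ℂ) * (df n d : ℂ) := by
      rw [df_add, df_single, Finsupp.tsub_apply]
      by_cases h0 : df n d = 0
      · rw [h0]
        simp
      · have h1 := (df_ne _ _).1 h0 j
        rw [Nat.cast_mul, Nat.cast_sub h1]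
        ring
    rw [mul_smul, e2, e1, ← mul_smul, smul_smul, ← add_smul]
    congr 1
    linear_combination -(evN n p) * e3

theorem nf_congr {f : ι → MvPolynomial σ ℂ} {E E' : (ι →₀ ℕ) → MvPolynomial σ ℂ} (h : NF f E)
    (h' : ∀ n, E' n = E n) : NF f E' := by
  have : E' = E := funext h'
  rw [this]
  exact h

/-- **Functional equations in terms of falling factorials.** -/
theorem nf_of_fe (f : ι → MvPolynomial σ ℂ) (b : Polynomial ℂ) (hb : IsFunctionalEq f b) :
    NF f fun n => b.eval ((∑ j, n j : ℕ) : ℂ) • pw f n := by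
  classical
  obtain ⟨S, P, hS, hP⟩ := hb
  set cf : (ι → ℤ) → ℂ := fun c => ∏ j, (((-c j).toNat.factorial : ℕ) : ℂ) with hcf
  have hcf0 : ∀ c, cf c ≠ 0 := by
    intro c
    rw [hcf]
    refine Finset.prod_ne_zero_iff.2 fun j _ => ?_
    exact_mod_cast Nat.factorial_ne_zero _
  set dm : (ι → ℤ) → (ι →₀ ℕ) := fun c => Finsupp.equivFunOnFinite.symm fun j => (-c j).toNat
    with hdm
  set dp : (ι → ℤ) → (ι →₀ ℕ) := fun c => Finsupp.equivFunOnFinite.symm fun j => (c j).toNat
    with hdp
  have hfall : ∀ (c : ι → ℤ) (α : ι →₀ ℕ), (df α (dm c) : ℂ) = cf c *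
      ((∏ j, (if c j < 0 then (α j).choose (-c j).toNat else 1) : ℕ) : ℂ) := by
    intro c α
    have : df α (dm c) = (∏ j, (-c j).toNat.factorial) *
        ∏ j, (if c j < 0 then (α j).choose (-c j).toNat else 1) := by
      rw [df, ← Finset.prod_mul_distrib]
      refine Finset.prod_congr rfl fun j _ => ?_
      have h1 : dm c j = (-c j).toNat := rfl
      rw [h1]
      split_ifs with h
      · rw [Nat.descFactorial_eq_factorial_mul_choose]
      · have h0 : (-c j).toNat = 0 := by omega
        rw [h0]; simp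
    rw [this, hcf]
    push_cast
    rfl
  have hsum : ∀ c ∈ S, ∑ j, dp c j = ∑ j, dm c j + 1 := by
    intro c hc
    have h1 := hS c hc
    have h2 : ((∑ j, dp c j : ℕ) : ℤ) - ((∑ j, dm c j : ℕ) : ℤ) = 1 := by
      rw [← h1]
      push_cast
      rw [← Finset.sum_sub_distrib]
      refine Finset.sum_congr rfl fun j _ => ?_
      have h3 : dm c j = (-c j).toNat := rfl
      have h4 : dp c j = (c j).toNat := rfl
      rw [h3, h4]
      omega
    omega
  have hmain : NF f (fun n => ∑ c ∈ S, ∑ β ∈ (P c).support, (cf c)⁻¹ •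
      ((evN n (monomial β 1) * (df n (dm c) : ℂ)) •
        (P c β : Module.End ℂ (MvPolynomial σ ℂ)) (pw f (n - dm c + dp c)))) :=
    nf_sum S _ fun c hc => nf_sum _ _ fun β _ => nf_smul (nf_term f (P c β) _ _ _ (hsum c hc)) _
  refine nf_congr hmain fun n => ?_
  have h1 := hP (fun j => n j)
  rw [C_mul'] at h1
  change b.eval ((∑ j, n j : ℕ) : ℂ) • ∏ j, f j ^ n j = _
  rw [h1]
  refine Finset.sum_congr rfl fun c _ => ?_
  rw [applyAt, Finsupp.sum]
  refine Finset.sum_congr rfl fun β _ => ?_
  have h2 : evN n (monomial β 1) = ∏ j, (n j : ℂ) ^ β j := by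
    rw [evN, eval_monomial, one_mul, Finsupp.prod_fintype]
    intro i
    rw [pow_zero]
  rw [h2, smul_smul, ← mul_assoc, mul_comm (cf c)⁻¹, mul_assoc, mul_smul]
  congr 1
  rw [C_mul', map_smul, hfall c n, inv_mul_cancel_left₀ (hcf0 c)]
  by_cases h0 : df n (dm c) = 0
  · have h3 := hfall c n
    rw [h0, Nat.cast_zero] at h3
    rw [(mul_eq_zero.1 h3.symm).resolve_left (hcf0 c), zero_smul, zero_smul]
  · have h3 := (df_ne _ _).1 h0
    congr 2
    refine Finset.prod_congr rfl fun j _ => ?_
    congr 1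
    have h4 := h3 j
    have h5 : dm c j = (-c j).toNat := rfl
    have h6 : dp c j = (c j).toNat := rfl
    rw [Finsupp.add_apply, Finsupp.tsub_apply, h5, h6]
    rw [h5] at h4
    omega

/-- **The converse, with polynomial coefficients.** -/
theorem fe_of_rep (f : ι → MvPolynomial σ ℂ) (b : Polynomial ℂ) {K : Type} [Fintype K]
    (c : K → ι → ℤ) (hc : ∀ k, ∑ j, c k j = 1) (p : K → MvPolynomial ι ℂ) (R : K → weyl σ)
    (h : ∀ n : ι →₀ ℕ, b.eval ((∑ j, n j : ℕ) : ℂ) • pw f n = ∑ k, (evN n (p k) *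
      (fall (c k) n : ℂ)) • (R k : Module.End ℂ (MvPolynomial σ ℂ)) (pw f (sh n (c k)))) :
    IsFunctionalEq f b := by
  classical
  set cf : K → ℂ := fun k => ∏ j, (((-c k j).toNat.factorial : ℕ) : ℂ) with hcf
  refine ⟨Finset.univ.image c, fun d => ∑ k ∈ Finset.univ.filter fun k => c k = d,
      tens (C (cf k) * p k) (R k), fun d hd => ?_, fun s => ?_⟩
  · obtain ⟨k, -, rfl⟩ := Finset.mem_image.1 hd
    exact hc k
  set s' : ι →₀ ℕ := Finsupp.equivFunOnFinite.symm s with hs'
  have hs's : ∀ j, s' j = s j := fun j => rfl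
  have hk := h s'
  have hpw : pw f s' = ∏ j, f j ^ s j := rfl
  simp only [hs's] at hk
  rw [hpw] at hk
  have hterm : ∀ k, (evN s' (p k) * (fall (c k) s' : ℂ)) •
      (R k : Module.End ℂ (MvPolynomial σ ℂ)) (pw f (sh s' (c k))) =
        applyAt (tens (C (cf k) * p k) (R k)) s
          (C ((∏ j, (if c k j < 0 then (s j).choose (-c k j).toNat else 1) : ℕ) : ℂ) *
            ∏ j, f j ^ ((s j : ℤ) + c k j).toNat) := by
    intro k
    rw [applyAt_tens]
    have h2 : (fall (c k) s' : ℂ) = cf k *
        ((∏ j, (if c k j < 0 then (s j).choose (-c k j).toNat else 1) : ℕ) : ℂ) := by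
      have : fall (c k) s' = (∏ j, (-c k j).toNat.factorial) *
          ∏ j, (if c k j < 0 then (s j).choose (-c k j).toNat else 1) := by
        rw [fall, ← Finset.prod_mul_distrib]
        refine Finset.prod_congr rfl fun j _ => ?_
        split_ifs with h
        · rw [hs's, Nat.descFactorial_eq_factorial_mul_choose]
        · have h0 : (-c k j).toNat = 0 := by omega
          rw [h0]; simp
      rw [this, hcf]
      push_cast
      rfl
    have h3 : pw f (sh s' (c k)) = ∏ j, f j ^ ((s j : ℤ) + c k j).toNat := rfl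
    have h4 : eval (fun j => (s j : ℂ)) (p k) = evN s' (p k) := rfl
    have h5 : C ((∏ j, (if c k j < 0 then (s j).choose (-c k j).toNat else 1) : ℕ) : ℂ) *
        ∏ j, f j ^ ((s j : ℤ) + c k j).toNat =
        ((∏ j, (if c k j < 0 then (s j).choose (-c k j).toNat else 1) : ℕ) : ℂ) •
        ∏ j, f j ^ ((s j : ℤ) + c k j).toNat := C_mul'
    rw [h2, h3, h5, map_smul, smul_smul, map_mul, eval_C, h4]
    congr 1
    ring
  rw [C_mul', hk, Finset.sum_congr rfl fun k _ => hterm k]
  simp only [applyAt_sum]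
  rw [← Finset.sum_fiberwise_of_maps_to (s := Finset.univ) (t := Finset.univ.image c) (g := c)
    fun k _ => Finset.mem_image_of_mem _ (Finset.mem_univ k)]
  refine Finset.sum_congr rfl fun d _ => Finset.sum_congr rfl fun k hk2 => ?_
  rw [(Finset.mem_filter.1 hk2).2]

/-- a smaller multi-index of given degree -/
theorem exists_le (e : ι →₀ ℕ) (N : ℕ) (h : N ≤ ∑ j, e j) :
    ∃ e' : ι →₀ ℕ, e' ≤ e ∧ ∑ j, e' j = N := by
  induction N with
  | zero => exact ⟨0, zero_le, by simp⟩
  | succ N ih =>
    obtain ⟨e', h1, h2⟩ := ih (by omega)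
    obtain ⟨j, -, hj⟩ : ∃ j ∈ Finset.univ, e' j < e j := by
      refine Finset.exists_lt_of_sum_lt ?_
      omega
    refine ⟨e' + Finsupp.single j 1, fun i => ?_, ?_⟩
    · rw [Finsupp.add_apply, Finsupp.single_apply]
      have := h1 i
      split_ifs with hi
      · subst hi
        omega
      · omega
    · simp only [Finsupp.add_apply, Finset.sum_add_distrib, h2]
      congr 1
      rw [Finset.sum_eq_single j]
      · simp
      · intro k _ hk
        exact Finsupp.single_eq_of_ne hk
      · simp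

theorem mulLeft_weyl (q : MvPolynomial σ ℂ) : LinearMap.mulLeft ℂ q ∈ weyl σ := by
  classical
  induction q using MvPolynomial.induction_on with
  | C c =>
    have : LinearMap.mulLeft ℂ (C c : MvPolynomial σ ℂ) = algebraMap ℂ _ c := by
      ext1 i
      refine LinearMap.ext fun x => ?_
      simp [C_mul', Algebra.algebraMap_eq_smul_one]
    rw [this]
    exact Subalgebra.algebraMap_mem _ _
  | add p q hp hq =>
    have : LinearMap.mulLeft ℂ (p + q) = LinearMap.mulLeft ℂ p + LinearMap.mulLeft ℂ q := by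
      refine LinearMap.ext fun x => ?_
      simp [add_mul]
    rw [this]
    exact Subalgebra.add_mem _ hp hq
  | mul_X p i hp =>
    have : LinearMap.mulLeft ℂ (p * X i) = LinearMap.mulLeft ℂ p * LinearMap.mulLeft ℂ (X i) := by
      refine LinearMap.ext fun x => ?_
      simp
    rw [this]
    exact Subalgebra.mul_mem _ hp (Algebra.subset_adjoin (Or.inl ⟨i, rfl⟩))

theorem evN_desc (n : ι →₀ ℕ) (a k : ι → ℕ) (h : ∀ j, a j ≤ n j) :
    evN n (∏ j, Polynomial.aeval (X j - C (a j : ℂ)) (descPochhammer ℂ (k j))) =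
      ((∏ j, (n j - a j).descFactorial (k j) : ℕ) : ℂ) := by
  rw [evN, map_prod, Nat.cast_prod]
  refine Finset.prod_congr rfl fun j _ => ?_
  rw [Polynomial.aeval_def, Polynomial.hom_eval₂, ← descPochhammer_eval_eq_descFactorial,
    Polynomial.eval, Nat.cast_sub (h j)]
  congr 1
  · ext x
    simp
  · simp

/-- **The converse for normal forms with polynomial coefficients.** -/
theorem fe_of_nf (f : ι → MvPolynomial σ ℂ) (b : Polynomial ℂ) {L : Type} [Fintype L]
    (p : L → MvPolynomial ι ℂ) (d e : L → ι →₀ ℕ) (R : L → weyl σ)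
    (he : ∀ l, ∑ j, d l j + 1 ≤ ∑ j, e l j)
    (h : ∀ n : ι →₀ ℕ, b.eval ((∑ j, n j : ℕ) : ℂ) • pw f n = ∑ l, (evN n (p l) *
      (df n (d l) : ℂ)) • (R l : Module.End ℂ (MvPolynomial σ ℂ)) (pw f (n - d l + e l))) :
    IsFunctionalEq f b := by
  classical
  choose e' he' hs using fun l => exists_le (e l) (∑ j, d l j + 1) (he l)
  set c : L → ι → ℤ := fun l j => (e' l j : ℤ) - d l j with hc
  refine fe_of_rep f b c (fun l => ?_)
    (fun l => p l * ∏ j, Polynomial.aeval (X j - C (((-c l j).toNat : ℕ) : ℂ))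
      (descPochhammer ℂ (d l j - (-c l j).toNat)))
    (fun l => ⟨(R l : Module.End ℂ (MvPolynomial σ ℂ)) * LinearMap.mulLeft ℂ (pw f (e l - e' l)),
      Subalgebra.mul_mem _ (R l).2 (mulLeft_weyl _)⟩) fun n => ?_
  · rw [hc]
    beta_reduce
    rw [Finset.sum_sub_distrib]
    have h1 := hs l
    have h2 : ((∑ j, e' l j : ℕ) : ℤ) = ((∑ j, d l j + 1 : ℕ) : ℤ) := by rw [h1]
    push_cast at h2
    rw [h2]
    ring
  · rw [h n]
    refine Finset.sum_congr rfl fun l _ => ?_
    have hle : ∀ j, (-c l j).toNat ≤ d l j := by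
      intro j
      have h1 : c l j = (e' l j : ℤ) - d l j := rfl
      rw [h1]
      omega
    have hdf : df n (d l) = fall (c l) n * ∏ j, (n j - (-c l j).toNat).descFactorial
        (d l j - (-c l j).toNat) := by
      rw [df, fall, ← Finset.prod_mul_distrib]
      refine Finset.prod_congr rfl fun j _ => ?_
      rw [← desc_add, Nat.add_sub_cancel' (hle j)]
    change _ = (evN n (p l * _) * (fall (c l) n : ℂ)) •
      (R l : Module.End ℂ (MvPolynomial σ ℂ)) (pw f (e l - e' l) * pw f (sh n (c l)))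
    by_cases h0 : df n (d l) = 0
    · rw [h0, Nat.cast_zero, mul_zero, zero_smul]
      by_cases h1 : fall (c l) n = 0
      · rw [h1, Nat.cast_zero, mul_zero, zero_smul]
      · have h2 := (mul_eq_zero.1 (hdf.symm.trans h0)).resolve_left h1
        have h3 : ∀ j, (-c l j).toNat ≤ n j := by
          intro j
          by_contra hlt
          push Not at hlt
          refine h1 (Finset.prod_eq_zero (Finset.mem_univ j) ?_)
          rwa [Nat.descFactorial_eq_zero_iff_lt]
        rw [evN, map_mul]
        have h4 := evN_desc n (fun j => (-c l j).toNat) (fun j => d l j - (-c l j).toNat) h3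
        rw [evN] at h4
        rw [h4, h2, Nat.cast_zero, mul_zero, zero_mul, zero_smul]
    · have h1 := (df_ne _ _).1 h0
      have h3 : ∀ j, (-c l j).toNat ≤ n j := fun j => (hle j).trans (h1 j)
      have h4 := evN_desc n (fun j => (-c l j).toNat) (fun j => d l j - (-c l j).toNat) h3
      have h5 : pw f (e l - e' l) * pw f (sh n (c l)) = pw f (n - d l + e l) := by
        rw [← pw_add]
        congr 1
        ext j
        have h6 := h1 j
        have h7 := he' l j
        have h8 : c l j = (e' l j : ℤ) - d l j := rfl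
        rw [Finsupp.add_apply, Finsupp.add_apply, Finsupp.tsub_apply, Finsupp.tsub_apply,
          sh_apply, h8]
        omega
      rw [h5, hdf]
      congr 1
      rw [evN] at h4
      rw [evN, evN, map_mul, h4, Nat.cast_mul]
      ring

end

end Pool.Agent.L5helper20.MQ
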