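import Pool.Agent.Y230.PL.Zeta
import Pool.Agent.Y229.LP1

set_option autoImplicit false
set_option linter.unusedSectionVars false

/-! # Orders of poles of rational functions -/

namespace Pool.Agent.L5helper20.MQ

open Polynomial Pool.Agent.W574.SM Pool.Agent.W574.CN Pool.Agent.Y229
open Pool.Agent.Y230.PL (tt tt_mem tt_fac rm_le)

/-- the order of the pole of `Z` at `s` -/
noncomputable def ro (s : ℂ) (Z : RatFunc ℂ) : ℕ := Z.denom.rootMultiplicity s

theorem tt_ne (s : ℂ) : tt s ≠ 0 := RatFunc.algebraMap_ne_zero (X_sub_C_ne_zero s)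

theorem tt_eq (s : ℂ) : tt s = RatFunc.X + RatFunc.C (-s) := by
  unfold tt
  rw [map_sub, RatFunc.algebraMap_X, RatFunc.algebraMap_C, map_neg]
  ring

theorem tt_ro (s : ℂ) (Z : RatFunc ℂ) : tt s ^ ro s Z * Z ∈ Reg s := by
  obtain ⟨q, hq, hq2⟩ := exists_eq_pow_rootMultiplicity_mul_and_not_dvd Z.denom Z.denom_ne_zero s
  refine ⟨Z.num, q, fun h => hq2 (dvd_iff_isRoot.2 h), ?_⟩
  have hX := tt_ne s
  have hq0 : algebraMap ℂ[X] (RatFunc ℂ) q ≠ 0 := RatFunc.algebraMap_ne_zero (by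
    rintro rfl
    exact hq2 (dvd_zero _))
  have h1 : Z = algebraMap ℂ[X] (RatFunc ℂ) Z.num /
      (tt s ^ ro s Z * algebraMap ℂ[X] (RatFunc ℂ) q) := by
    conv_lhs => rw [← RatFunc.num_div_denom Z]
    congr 1
    conv_lhs => rw [hq]
    rw [map_mul, map_pow]
    rfl
  rw [eq_div_iff hq0]
  have h2 : tt s ^ ro s Z * algebraMap ℂ[X] (RatFunc ℂ) q ≠ 0 := mul_ne_zero (pow_ne_zero _ hX) hq0
  rw [eq_div_iff h2] at h1
  linear_combination h1

theorem ro_le {s : ℂ} {k : ℕ} {Z : RatFunc ℂ} (h : tt s ^ k * Z ∈ Reg s) : ro s Z ≤ k :=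
  rm_le s k Z h

theorem reg_of_ro {s : ℂ} {k : ℕ} {Z : RatFunc ℂ} (h : ro s Z ≤ k) : tt s ^ k * Z ∈ Reg s := by
  have : tt s ^ k * Z = tt s ^ (k - ro s Z) * (tt s ^ ro s Z * Z) := by
    rw [← mul_assoc, ← pow_add, Nat.sub_add_cancel h]
  rw [this]
  exact (Reg s).mul_mem ((Reg s).pow_mem (tt_mem s) _) (tt_ro s Z)

theorem ro_zero {s : ℂ} {Z : RatFunc ℂ} (h : Z.denom.eval s ≠ 0) : ro s Z = 0 :=
  rootMultiplicity_eq_zero h

theorem pole_of_ro {s : ℂ} {Z : RatFunc ℂ} (h : 0 < ro s Z) : Z.denom.eval s = 0 := by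
  by_contra h1
  rw [ro_zero h1] at h
  exact absurd h (lt_irrefl 0)

/-- if `b Z` is a polynomial then the order of the pole is at most the multiplicity of the root -/
theorem dvd_of_poly (b P : ℂ[X]) (Z : RatFunc ℂ)
    (h : algebraMap ℂ[X] (RatFunc ℂ) b * Z = algebraMap ℂ[X] (RatFunc ℂ) P) (s : ℂ) :
    (X - C s) ^ ro s Z ∣ b := by
  have h1 : Z.denom ∣ b := by
    rcases eq_or_ne b 0 with rfl | hb
    · exact dvd_zero _
    have hb' : algebraMap ℂ[X] (RatFunc ℂ) b ≠ 0 := RatFunc.algebraMap_ne_zero hb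
    have h2 : Z = algebraMap ℂ[X] (RatFunc ℂ) P / algebraMap ℂ[X] (RatFunc ℂ) b := by
      rw [eq_div_iff hb', mul_comm]
      exact h
    rw [h2]
    exact RatFunc.denom_div_dvd P b
  exact (pow_rootMultiplicity_dvd Z.denom s).trans h1

/-- the converse -/
theorem poly_of_dvd (b : ℂ[X]) (Z : RatFunc ℂ) (h : ∀ s : ℂ, (X - C s) ^ ro s Z ∣ b) :
    ∃ P : ℂ[X], algebraMap ℂ[X] (RatFunc ℂ) b * Z = algebraMap ℂ[X] (RatFunc ℂ) P := by
  rcases eq_or_ne b 0 with rfl | hb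
  · exact ⟨0, by simp⟩
  have h1 : Z.denom ∣ b := by
    have h2 : Z.denom.roots ≤ b.roots := by
      rw [Multiset.le_iff_count]
      intro s
      rw [count_roots, count_roots]
      exact (le_rootMultiplicity_iff hb).2 (h s)
    have h3 : Z.denom.Splits := IsAlgClosed.splits _
    exact h3.dvd_of_roots_le_roots Z.denom_ne_zero h2
  obtain ⟨c, hc⟩ := h1
  refine ⟨c * Z.num, ?_⟩
  have h4 : algebraMap ℂ[X] (RatFunc ℂ) Z.denom ≠ 0 := RatFunc.algebraMap_ne_zero Z.denom_ne_zero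
  have h5 : algebraMap ℂ[X] (RatFunc ℂ) Z.denom * Z = algebraMap ℂ[X] (RatFunc ℂ) Z.num := by
    have h6 := Z.num_div_denom
    rw [div_eq_iff h4] at h6
    rw [mul_comm]
    exact h6.symm
  rw [hc, map_mul, map_mul, ← h5]
  ring

/-- the orders of the poles of the Laplace transforms of exponential polynomials -/
theorem lap_order (v : ℂ × ℕ →₀ ℂ) (p : ℂ × ℕ) (h : p ∈ v.support) :
    p.2 + 1 ≤ ro (-p.1) (lap v) := by
  classical
  by_contra hlt
  have hreg := reg_of_ro (show ro (-p.1) (lap v) ≤ p.2 by omega)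
  obtain ⟨p0, hp0, hmax⟩ := Finset.exists_max_image (v.support.filter (fun q => q.1 = p.1))
    (fun q => q.2) ⟨p, Finset.mem_filter.2 ⟨h, rfl⟩⟩
  obtain ⟨hp0s, hp01⟩ := Finset.mem_filter.1 hp0
  have hpp : p.2 ≤ p0.2 := hmax p (Finset.mem_filter.2 ⟨h, rfl⟩)
  set α := p.1 with hα
  set x : RatFunc ℂ := RatFunc.X + RatFunc.C α with hx
  have htx : tt (-α) = x := by rw [tt_eq, neg_neg]
  have hx0 : x ≠ 0 := XC_ne α
  have hxr : x ∈ Reg (-α) := (Reg _).add_mem (X_reg _) (C_reg _ _)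
  have h1 : ∀ q ∈ v.support.erase p0,
      x ^ p0.2 * (RatFunc.C (v q) * lterm q.1 q.2) ∈ Reg (-α) := by
    intro q hq
    by_cases hq1 : q.1 = α
    · have h2 : q.2 ≤ p0.2 := hmax q (Finset.mem_filter.2 ⟨Finset.mem_of_mem_erase hq, hq1⟩)
      have h3 : q.2 ≠ p0.2 := fun h3 => Finset.ne_of_mem_erase hq
        (Prod.ext (hq1.trans hp01.symm) h3)
      obtain ⟨m, hm⟩ : ∃ m, p0.2 = m + (q.2 + 1) := ⟨p0.2 - (q.2 + 1), by omega⟩
      have h4 : x ^ p0.2 * (RatFunc.C (v q) * lterm q.1 q.2) =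
          x ^ m * (RatFunc.C (v q) * RatFunc.C (q.2.factorial : ℂ)) := by
        rw [lterm, hq1, ← hx, hm, pow_add]
        field_simp
      rw [h4]
      exact (Reg _).mul_mem ((Reg _).pow_mem hxr _) ((Reg _).mul_mem (C_reg _ _) (C_reg _ _))
    · exact (Reg _).mul_mem ((Reg _).pow_mem hxr _) ((Reg _).mul_mem (C_reg _ _)
        (lterm_reg _ _ _ fun h2 => hq1 (neg_injective h2.symm)))
  have h2 : x ^ p0.2 * lap v = RatFunc.C (v p0 * (p0.2.factorial : ℂ)) * x⁻¹ +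
      ∑ q ∈ v.support.erase p0, x ^ p0.2 * (RatFunc.C (v q) * lterm q.1 q.2) := by
    rw [lap, Finsupp.sum, Finset.mul_sum, ← Finset.add_sum_erase _ _ hp0s]
    congr 1
    rw [lterm, hp01, ← hx, map_mul, pow_succ]
    field_simp
  have hreg' : x ^ p0.2 * lap v ∈ Reg (-α) := by
    have e : x ^ p0.2 * lap v = x ^ (p0.2 - p.2) * (x ^ p.2 * lap v) := by
      rw [← mul_assoc, ← pow_add, Nat.sub_add_cancel hpp]
    rw [e]
    rw [htx] at hreg
    exact (Reg _).mul_mem ((Reg _).pow_mem hxr _) hreg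
  have h3 : RatFunc.C (v p0 * (p0.2.factorial : ℂ)) * x⁻¹ ∈ Reg (-α) := by
    have h4 := (Reg (-α)).sub_mem hreg' (Subring.sum_mem _ h1)
    rw [h2, add_sub_cancel_right] at h4
    exact h4
  have hc : v p0 * (p0.2.factorial : ℂ) ≠ 0 :=
    mul_ne_zero (Finsupp.mem_support_iff.1 hp0s) (Nat.cast_ne_zero.2 (Nat.factorial_ne_zero _))
  have h4 := (Reg (-α)).mul_mem (C_reg (-α) (v p0 * (p0.2.factorial : ℂ))⁻¹) h3
  rw [← mul_assoc, ← map_mul, inv_mul_cancel₀ hc, map_one, one_mul] at h4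
  exact inv_not_reg α h4

/-- the order of the pole of `Z`, `U - Z = s (lap v + c)` with `U` a polynomial -/
theorem order_of_exp (U Z : RatFunc ℂ) (hU : ∀ s : ℂ, U ∈ Reg s) (v : ℂ × ℕ →₀ ℂ) (c : ℂ)
    (hv : U - Z = RatFunc.X * (lap v - RatFunc.C c))
    (hv0 : ∀ p ∈ v.support, p.1 ≠ 0) (p : ℂ × ℕ) (hp : p ∈ v.support) :
    p.2 + 1 ≤ ro (-p.1) Z := by
  by_contra hlt
  have h1 := reg_of_ro (show ro (-p.1) Z ≤ p.2 by omega)
  have h2 := lap_order v p hp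
  have h3 : tt (-p.1) ^ p.2 * lap v ∈ Reg (-p.1) := by
    have e : tt (-p.1) ^ p.2 * lap v = RatFunc.X⁻¹ * (tt (-p.1) ^ p.2 * U - tt (-p.1) ^ p.2 * Z) +
        tt (-p.1) ^ p.2 * RatFunc.C c := by
      rw [← mul_sub, hv]
      have := RatFunc.X_ne_zero (K := ℂ)
      field_simp
      ring
    rw [e]
    refine (Reg _).add_mem ((Reg _).mul_mem (X_inv_reg _ (neg_ne_zero.2 (hv0 p hp)))
      ((Reg _).sub_mem ((Reg _).mul_mem ((Reg _).pow_mem (tt_mem _) _) (hU _)) h1))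
      ((Reg _).mul_mem ((Reg _).pow_mem (tt_mem _) _) (C_reg _ _))
  have h4 := ro_le h3
  omega

/-- the largest order at `s` in the product of two exponential polynomials -/
noncomputable def pairOrd (v w : ℂ × ℕ →₀ ℂ) (s : ℂ) : ℕ :=
  open Classical in
  ((v.support ×ˢ w.support).filter fun x => s = -x.1.1 + -x.2.1).sup fun x => x.1.2 + x.2.2 + 1

theorem lap2_order (v w : ℂ × ℕ →₀ ℂ) (s : ℂ) : tt s ^ pairOrd v w s * lap2 v w ∈ Reg s := by
  classical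
  unfold lap2 Finsupp.sum
  rw [Finset.mul_sum]
  refine Subring.sum_mem _ fun p hp => ?_
  rw [Finset.mul_sum]
  refine Subring.sum_mem _ fun q hq => ?_
  by_cases hs : s = -p.1 + -q.1
  · have hle : p.2 + q.2 + 1 ≤ pairOrd v w s := by
      unfold pairOrd
      exact Finset.le_sup (f := fun x : (ℂ × ℕ) × (ℂ × ℕ) => x.1.2 + x.2.2 + 1)
        (b := (p, q)) (Finset.mem_filter.2 ⟨Finset.mem_product.2 ⟨hp, hq⟩, hs⟩)
    have e : tt s ^ pairOrd v w s * (RatFunc.C (v p * w q) * lterm (p.1 + q.1) (p.2 + q.2)) =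
        tt s ^ (pairOrd v w s - (p.2 + q.2 + 1)) * (RatFunc.C (v p * w q) *
          RatFunc.C ((p.2 + q.2).factorial : ℂ)) := by
      have e1 : (RatFunc.X + RatFunc.C (p.1 + q.1) : RatFunc ℂ) = tt s := by
        rw [tt_eq, hs]
        congr 2
        ring
      rw [lterm, e1]
      have hx := tt_ne s
      have e2 : tt s ^ pairOrd v w s = tt s ^ (pairOrd v w s - (p.2 + q.2 + 1)) *
          tt s ^ (p.2 + q.2 + 1) := by rw [← pow_add, Nat.sub_add_cancel hle]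
      rw [e2]
      field_simp
    rw [e]
    exact (Reg s).mul_mem ((Reg s).pow_mem (tt_mem s) _) ((Reg s).mul_mem (C_reg s _) (C_reg s _))
  · refine (Reg s).mul_mem ((Reg s).pow_mem (tt_mem s) _) ((Reg s).mul_mem (C_reg s _)
      (lterm_reg s _ _ fun h1 => hs ?_))
    rw [h1]
    ring

/-- if the order is positive it is attained -/
theorem pairOrd_spec (v w : ℂ × ℕ →₀ ℂ) (s : ℂ) : pairOrd v w s = 0 ∨
    ∃ p ∈ v.support, ∃ q ∈ w.support, s = -p.1 + -q.1 ∧ pairOrd v w s = p.2 + q.2 + 1 := by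
  classical
  by_cases hne : ((v.support ×ˢ w.support).filter fun x => s = -x.1.1 + -x.2.1).Nonempty
  · right
    obtain ⟨x, hx, hx2⟩ := Finset.exists_mem_eq_sup _ hne
      (fun x : (ℂ × ℕ) × (ℂ × ℕ) => x.1.2 + x.2.2 + 1)
    rw [Finset.mem_filter, Finset.mem_product] at hx
    exact ⟨x.1, hx.1.1, x.2, hx.1.2, hx.2, hx2⟩
  · left
    rw [Finset.not_nonempty_iff_eq_empty] at hne
    unfold pairOrd
    rw [hne]
    rfl

end Pool.Agent.L5helper20.MQ
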