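import Pool.Agent.L5helper20.MQ.Norm

set_option autoImplicit false
set_option linter.unusedSectionVars false

/-! # Powers of ideals: the functional equation in the degrees divisible by `k` -/

namespace Pool.Agent.L5helper20.MQ

open MvPolynomial Pool.Agent.W574.SM Pool.Agent.W574.HS

section

variable {σ ι : Type} [Fintype ι] [DecidableEq ι]

theorem hat_inj {G H : MvPolynomial (ι ⊕ σ) ℂ} (h : hat G = hat H) : G = H := by
  apply (sumAlgEquiv ℂ ι σ).injective
  ext1 α
  have h1 := congrFun h α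
  unfold hat at h1
  exact smul_right_injective (MvPolynomial σ ℂ)
    (by exact_mod_cast mfact_ne_zero α : (mfact α : ℂ) ≠ 0) h1

theorem pw_single {M : Type} [CommMonoid M] (f : ι → M) (j : ι) (n : ℕ) :
    pw f (Finsupp.single j n) = f j ^ n := by
  unfold pw
  rw [Finset.prod_eq_single j]
  · rw [Finsupp.single_eq_same]
  · intro k _ hk
    rw [Finsupp.single_eq_of_ne hk, pow_zero]
  · intro h
    exact absurd (Finset.mem_univ j) h

theorem hat_pw (d : ι →₀ ℕ) : ∀ (G : MvPolynomial (ι ⊕ σ) ℂ) (α : ι →₀ ℕ),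
    hat (pw (fun j => (X (Sum.inl j) : MvPolynomial (ι ⊕ σ) ℂ)) d * G) α =
      (df α d : ℂ) • hat G (α - d) := by
  have hadd : ∀ d e : ι →₀ ℕ,
      (∀ (G : MvPolynomial (ι ⊕ σ) ℂ) (α : ι →₀ ℕ),
        hat (pw (fun j => (X (Sum.inl j) : MvPolynomial (ι ⊕ σ) ℂ)) d * G) α =
          (df α d : ℂ) • hat G (α - d)) →
      (∀ (G : MvPolynomial (ι ⊕ σ) ℂ) (α : ι →₀ ℕ),
        hat (pw (fun j => (X (Sum.inl j) : MvPolynomial (ι ⊕ σ) ℂ)) e * G) α =
          (df α e : ℂ) • hat G (α - e)) →
      (∀ (G : MvPolynomial (ι ⊕ σ) ℂ) (α : ι →₀ ℕ),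
        hat (pw (fun j => (X (Sum.inl j) : MvPolynomial (ι ⊕ σ) ℂ)) (d + e) * G) α =
          (df α (d + e) : ℂ) • hat G (α - (d + e))) := by
    intro d e hd he G α
    rw [pw_add, mul_assoc, hd, he, smul_smul, df_add, tsub_add_eq_tsub_tsub]
    push_cast
    rfl
  have hzero : ∀ (G : MvPolynomial (ι ⊕ σ) ℂ) (α : ι →₀ ℕ),
        hat (pw (fun j => (X (Sum.inl j) : MvPolynomial (ι ⊕ σ) ℂ)) 0 * G) α =
          (df α 0 : ℂ) • hat G (α - 0) := by
    intro G α
    rw [pw_zero, one_mul, df_zero', Nat.cast_one, one_smul, tsub_zero]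
  induction d using Finsupp.induction_linear with
  | zero => exact hzero
  | add d e hd he => exact hadd d e hd he
  | single j n =>
    induction n with
    | zero =>
      rw [Finsupp.single_zero]
      exact hzero
    | succ n ih =>
      rw [Finsupp.single_add]
      refine hadd _ _ ih ?_
      intro G α
      rw [pw_single, pow_one, df_single, hat_Xl]

/-- the exponent of `∏_i f_{J i}` -/
noncomputable def aJ {k : ℕ} (J : Fin k → ι) : ι →₀ ℕ := ∑ i, Finsupp.single (J i) 1

/-- the exponents of the products -/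
noncomputable def AA (ι : Type) [Fintype ι] [DecidableEq ι] (k : ℕ) :
    ((Fin k → ι) →₀ ℕ) →ₗ[ℕ] (ι →₀ ℕ) := Finsupp.linearCombination ℕ aJ

theorem sum_add' (m n : ι →₀ ℕ) : ∑ j, (m + n) j = ∑ j, m j + ∑ j, n j := by
  simp only [Finsupp.add_apply, Finset.sum_add_distrib]

theorem sum_single' (j : ι) (n : ℕ) : ∑ i, (Finsupp.single j n : ι →₀ ℕ) i = n := by
  rw [Finset.sum_eq_single j]
  · simp
  · intro k _ hk
    exact Finsupp.single_eq_of_ne hk
  · simp

theorem aJ_sum {k : ℕ} (J : Fin k → ι) : ∑ j, aJ J j = k := by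
  unfold aJ
  simp only [Finsupp.finsetSum_apply]
  rw [Finset.sum_comm]
  simp only [sum_single']
  simp

theorem AA_sum (k : ℕ) (n : (Fin k → ι) →₀ ℕ) : ∑ j, AA ι k n j = k * ∑ J, n J := by
  induction n using Finsupp.induction_linear with
  | zero => simp
  | add m n hm hn => rw [map_add, sum_add', sum_add', hm, hn, mul_add]
  | single J m =>
    rw [AA, Finsupp.linearCombination_single, sum_single']
    simp only [Finsupp.smul_apply, smul_eq_mul]
    rw [← Finset.mul_sum, aJ_sum, mul_comm]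

theorem pw_sum {M : Type} [CommMonoid M] (f : ι → M) {K : Type} (s : Finset K)
    (n : K → ι →₀ ℕ) : pw f (∑ k ∈ s, n k) = ∏ k ∈ s, pw f (n k) := by
  classical
  induction s using Finset.induction_on with
  | empty => simp [pw_zero]
  | insert k s hk ih => rw [Finset.sum_insert hk, Finset.prod_insert hk, pw_add, ih]

theorem pw_smul {M : Type} [CommMonoid M] (f : ι → M) (m : ℕ) (n : ι →₀ ℕ) :
    pw f (m • n) = pw f n ^ m := by
  induction m with
  | zero => rw [zero_smul, pw_zero, pow_zero]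
  | succ m ih => rw [add_smul, one_smul, pw_add, ih, pow_succ]

theorem pw_aJ {M : Type} [CommMonoid M] (f : ι → M) {k : ℕ} (J : Fin k → ι) :
    pw f (aJ J) = ∏ i, f (J i) := by
  unfold aJ
  rw [pw_sum]
  exact Finset.prod_congr rfl fun i _ => by rw [pw_single, pow_one]

theorem pw_AA {M : Type} [CommMonoid M] (f : ι → M) {k : ℕ} (n : (Fin k → ι) →₀ ℕ) :
    pw (fun J : Fin k → ι => ∏ i, f (J i)) n = pw f (AA ι k n) := by
  induction n using Finsupp.induction_linear with
  | zero => rw [pw_zero, map_zero, pw_zero]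
  | add m n hm hn => rw [map_add, pw_add, pw_add, hm, hn]
  | single J m =>
    rw [AA, Finsupp.linearCombination_single, pw_single, pw_smul, pw_aJ]

/-- the substitution of the products of the `y_j` -/
noncomputable def phi (σ ι : Type) [Fintype ι] [DecidableEq ι] (k : ℕ) :
    MvPolynomial ((Fin k → ι) ⊕ σ) ℂ →ₐ[ℂ] MvPolynomial (ι ⊕ σ) ℂ :=
  aeval (Sum.elim (fun J => ∏ i, X (Sum.inl (J i))) fun i => X (Sum.inr i))

theorem phi_l (k : ℕ) (J : Fin k → ι) :
    phi σ ι k (X (Sum.inl J)) = ∏ i, X (Sum.inl (J i)) := by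
  rw [phi, aeval_X, Sum.elim_inl]

theorem phi_r (k : ℕ) (i : σ) : phi σ ι k (X (Sum.inr i)) = X (Sum.inr i) := by
  rw [phi, aeval_X, Sum.elim_inr]

theorem phi_rename (k : ℕ) (p : MvPolynomial σ ℂ) :
    phi σ ι k (rename Sum.inr p) = rename Sum.inr p := by
  induction p using MvPolynomial.induction_on with
  | C a =>
    rw [rename_C, rename_C, phi]
    exact aeval_C _ _
  | add p q hp hq => rw [map_add, map_add, map_add, hp, hq]
  | mul_X p i hp => rw [map_mul, map_mul, map_mul, hp, rename_X, rename_X, phi_r]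

theorem phi_univ (k : ℕ) (f : ι → MvPolynomial σ ℂ) :
    phi σ ι k (univ fun J : Fin k → ι => ∏ i, f (J i)) = univ f ^ k := by
  rw [univ, map_sum, univ, Fintype.sum_pow]
  refine Finset.sum_congr rfl fun J _ => ?_
  rw [map_mul, phi_l, phi_rename, map_prod, ← Finset.prod_mul_distrib]

theorem phi_pw (k : ℕ) (d : (Fin k → ι) →₀ ℕ) :
    phi σ ι k (pw (fun J => X (Sum.inl J)) d) = pw (fun j => X (Sum.inl j)) (AA ι k d) := by
  rw [← pw_AA, pw, pw, map_prod]
  exact Finset.prod_congr rfl fun J _ => by rw [map_pow, phi_l]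

theorem pderiv_prod_inl (k : ℕ) (i : σ) (J : Fin k → ι) :
    pderiv (Sum.inr i) (∏ t, X (Sum.inl (J t)) : MvPolynomial (ι ⊕ σ) ℂ) = 0 := by
  classical
  have h : ∀ s : Finset (Fin k),
      pderiv (Sum.inr i) (∏ t ∈ s, X (Sum.inl (J t)) : MvPolynomial (ι ⊕ σ) ℂ) = 0 := by
    intro s
    induction s using Finset.induction_on with
    | empty => simp
    | insert t s ht ih =>
      rw [Finset.prod_insert ht, Derivation.leibniz, ih, pderiv_X, Pi.single_eq_of_ne (by simp)]
      simp
  exact h _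

theorem phi_dr (k : ℕ) (i : σ) (G : MvPolynomial ((Fin k → ι) ⊕ σ) ℂ) :
    phi σ ι k (pderiv (Sum.inr i) G) = pderiv (Sum.inr i) (phi σ ι k G) := by
  classical
  induction G using MvPolynomial.induction_on with
  | C a =>
    have : phi σ ι k (C a) = C a := by
      rw [phi]
      exact aeval_C _ _
    rw [pderiv_C, map_zero, this, pderiv_C]
  | add p q hp hq => rw [map_add, map_add, map_add, map_add, hp, hq]
  | mul_X p t hp =>
    rw [Derivation.leibniz, map_add, map_mul, Derivation.leibniz, smul_eq_mul, smul_eq_mul,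
      smul_eq_mul, smul_eq_mul, map_mul, map_mul, hp]
    congr 2
    rcases t with J | t
    · rw [phi_l, pderiv_prod_inl, pderiv_X, Pi.single_eq_of_ne (by simp), map_zero]
    · rw [phi_r, pderiv_X, pderiv_X]
      by_cases h : t = i
      · subst h
        simp
      · rw [Pi.single_eq_of_ne (fun h' => h (Sum.inr_injective h')),
          Pi.single_eq_of_ne (fun h' => h (Sum.inr_injective h')), map_zero]

theorem comm_weyl [DecidableEq σ] (k : ℕ) (R : Module.End ℂ (MvPolynomial σ ℂ))
    (hR : R ∈ weyl σ) : ∃ (R1 : Module.End ℂ (MvPolynomial ((Fin k → ι) ⊕ σ) ℂ))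
      (R2 : Module.End ℂ (MvPolynomial (ι ⊕ σ) ℂ)), (∀ G n, hat (R1 G) n = R (hat G n)) ∧
      (∀ G s, hat (R2 G) s = R (hat G s)) ∧ ∀ G, phi σ ι k (R1 G) = R2 (phi σ ι k G) := by
  induction hR using Algebra.adjoin_induction with
  | mem Q hQ =>
    rcases hQ with ⟨i, rfl⟩ | ⟨i, rfl⟩
    · refine ⟨LinearMap.mulLeft ℂ (X (Sum.inr i) : MvPolynomial ((Fin k → ι) ⊕ σ) ℂ),
        LinearMap.mulLeft ℂ (X (Sum.inr i) : MvPolynomial (ι ⊕ σ) ℂ), fun G n => ?_,
        fun G n => ?_, fun G => ?_⟩
      · rw [LinearMap.mulLeft_apply, hat_Xr]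
        rfl
      · rw [LinearMap.mulLeft_apply, hat_Xr]
        rfl
      · rw [LinearMap.mulLeft_apply, LinearMap.mulLeft_apply, map_mul, phi_r]
    · refine ⟨((pderiv (Sum.inr i) : Derivation ℂ (MvPolynomial ((Fin k → ι) ⊕ σ) ℂ)
          (MvPolynomial ((Fin k → ι) ⊕ σ) ℂ)) : MvPolynomial ((Fin k → ι) ⊕ σ) ℂ →ₗ[ℂ]
          MvPolynomial ((Fin k → ι) ⊕ σ) ℂ),
        ((pderiv (Sum.inr i) : Derivation ℂ (MvPolynomial (ι ⊕ σ) ℂ)
          (MvPolynomial (ι ⊕ σ) ℂ)) : MvPolynomial (ι ⊕ σ) ℂ →ₗ[ℂ] MvPolynomial (ι ⊕ σ) ℂ),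
        fun G n => ?_, fun G n => ?_, fun G => ?_⟩
      · change hat (pderiv (Sum.inr i) G) n = pderiv i (hat G n)
        exact hat_dr i G n
      · change hat (pderiv (Sum.inr i) G) n = pderiv i (hat G n)
        exact hat_dr i G n
      · change phi σ ι k (pderiv (Sum.inr i) G) = pderiv (Sum.inr i) (phi σ ι k G)
        exact phi_dr k i G
  | algebraMap r =>
    refine ⟨algebraMap ℂ _ r, algebraMap ℂ _ r, fun G n => ?_, fun G n => ?_, fun G => ?_⟩
    · change hat (r • G) n = r • hat G n
      exact hat_smul r G n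
    · change hat (r • G) n = r • hat G n
      exact hat_smul r G n
    · change phi σ ι k (r • G) = r • phi σ ι k G
      rw [map_smul]
  | add Q Q' _ _ h h' =>
    obtain ⟨R1, R2, h1, h2, h3⟩ := h
    obtain ⟨R1', R2', h1', h2', h3'⟩ := h'
    refine ⟨R1 + R1', R2 + R2', fun G n => ?_, fun G n => ?_, fun G => ?_⟩
    · rw [LinearMap.add_apply, hat_add, h1, h1', LinearMap.add_apply]
    · rw [LinearMap.add_apply, hat_add, h2, h2', LinearMap.add_apply]
    · rw [LinearMap.add_apply, map_add, h3, h3', LinearMap.add_apply]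
  | mul Q Q' _ _ h h' =>
    obtain ⟨R1, R2, h1, h2, h3⟩ := h
    obtain ⟨R1', R2', h1', h2', h3'⟩ := h'
    refine ⟨R1 * R1', R2 * R2', fun G n => ?_, fun G n => ?_, fun G => ?_⟩
    · rw [Module.End.mul_apply, h1, h1', Module.End.mul_apply]
    · rw [Module.End.mul_apply, h2, h2', Module.End.mul_apply]
    · rw [Module.End.mul_apply, h3, h3', Module.End.mul_apply]

/-- **The functional equation of `I ^ k` gives an identity for `I` in the degrees `k S`.** -/
theorem pow_ident [DecidableEq σ] (k : ℕ) (f : ι → MvPolynomial σ ℂ) (b : Polynomial ℂ)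
    (hb : IsFunctionalEq (fun J : Fin k → ι => ∏ i, f (J i)) b) :
    ∃ (L : Type) (_ : Fintype L) (d e : L → ι →₀ ℕ) (m : L → ℕ) (R : L → weyl σ),
      (∀ l, ∑ j, d l j = k * m l) ∧ (∀ l, ∑ j, e l j = k * (m l + 1)) ∧
      ∀ (S : ℕ) (s : ι →₀ ℕ), ∑ j, s j = k * S →
        (b.eval (S : ℂ) * ((k * S).factorial : ℂ)) • pw f s =
          ∑ l, ((S.descFactorial (m l) : ℂ) * (df s (d l) : ℂ) *
            ((k * (S - m l)).factorial : ℂ)) •
              (R l : Module.End ℂ (MvPolynomial σ ℂ)) (pw f (s - d l + e l)) := by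
  classical
  set F : (Fin k → ι) → MvPolynomial σ ℂ := fun J => ∏ i, f (J i) with hF
  obtain ⟨L, iL, d, e, R, h1, h2⟩ := nf_of_fe F b hb
  choose R1 R2 hR1 hR2 hR3 using fun l => comm_weyl (ι := ι) k (R l).1 (R l).2
  set m : L → ℕ := fun l => ∑ J, d l J with hm
  -- the identity in `z, x`
  have hid : ∀ S : ℕ, C (b.eval (S : ℂ)) * univ F ^ S = ∑ l, (S.descFactorial (m l) : ℂ) •
      R1 l (rename Sum.inr (pw F (e l)) *
        (pw (fun J => (X (Sum.inl J) : MvPolynomial ((Fin k → ι) ⊕ σ) ℂ)) (d l) *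
          univ F ^ (S - m l))) := by
    intro S
    apply hat_inj
    funext n
    rw [hat_C_mul, hat_univ_pow, hat_sum]
    have hterm : ∀ l, hat ((S.descFactorial (m l) : ℂ) •
        R1 l (rename Sum.inr (pw F (e l)) *
          (pw (fun J => (X (Sum.inl J) : MvPolynomial ((Fin k → ι) ⊕ σ) ℂ)) (d l) *
            univ F ^ (S - m l)))) n = if ∑ J, n J = S then (S.factorial : ℂ) •
              ((df n (d l) : ℂ) • (R l : Module.End ℂ (MvPolynomial σ ℂ))
                (pw F (n - d l + e l))) else 0 := by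
      intro l
      rw [hat_smul, hR1, hat_r, hat_pw, hat_univ_pow]
      by_cases h0 : df n (d l) = 0
      · rw [h0, Nat.cast_zero, zero_smul, mul_zero, map_zero, smul_zero, zero_smul, smul_zero,
          ite_self]
      · have hle := (df_ne _ _).1 h0
        have hsum : ∑ J, (n - d l) J + m l = ∑ J, n J := by
          rw [hm]
          beta_reduce
          rw [← sum_add', tsub_add_cancel_of_le hle]
        by_cases hS : m l ≤ S
        · have hiff : (∑ J, (n - d l) J = S - m l) ↔ ∑ J, n J = S := by omega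
          by_cases hn : ∑ J, n J = S
          · rw [if_pos hn, if_pos (hiff.2 hn), mul_smul_comm, mul_smul_comm, map_smul, map_smul,
              smul_smul, smul_smul, smul_smul]
            have e1 : pw F (e l) * ∏ j, F j ^ (n - d l) j = pw F (n - d l + e l) := by
              rw [mul_comm, pw_add]
              rfl
            rw [e1]
            congr 1
            have e2 := Nat.factorial_mul_descFactorial hS
            rw [← e2]
            push_cast
            ring
          · rw [if_neg hn, if_neg (fun h => hn (hiff.1 h)), smul_zero, mul_zero, map_zero,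
              smul_zero]
        · have e1 : S.descFactorial (m l) = 0 := Nat.descFactorial_eq_zero_iff_lt.2 (by omega)
          have e2 : ¬ ∑ J, n J = S := by omega
          rw [e1, Nat.cast_zero, zero_smul, if_neg e2]
    rw [Finset.sum_congr rfl fun l _ => hterm l]
    by_cases hn : ∑ J, n J = S
    · simp only [if_pos hn]
      rw [← Finset.smul_sum, smul_comm]
      congr 1
      have h3 := h2 n
      beta_reduce at h3
      rw [hn] at h3
      exact h3
    · simp only [if_neg hn]
      simp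
  refine ⟨L, iL, fun l => AA ι k (d l), fun l => AA ι k (e l), m, R, fun l => AA_sum k _,
    fun l => ?_, fun S s hs => ?_⟩
  · rw [AA_sum, h1]
  · have h3 := congrArg (fun G => hat (phi σ ι k G) s) (hid S)
    beta_reduce at h3
    have e0 : phi σ ι k (C (b.eval (S : ℂ))) = C (b.eval (S : ℂ)) := by
      rw [phi]
      exact aeval_C _ _
    rw [map_mul, map_pow, phi_univ, ← pow_mul, e0, hat_C_mul, hat_univ_pow, if_pos hs,
      smul_smul, map_sum, hat_sum] at h3
    refine h3.trans (Finset.sum_congr rfl fun l _ => ?_)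
    rw [map_smul, hat_smul, hR3, hR2, map_mul, map_mul, map_pow, phi_univ, ← pow_mul, phi_rename,
      phi_pw, hat_r, hat_pw, hat_univ_pow]
    by_cases h0 : df s (AA ι k (d l)) = 0
    · rw [h0]
      simp
    · have hle := (df_ne _ _).1 h0
      by_cases hS : m l ≤ S
      · have hsum : ∑ j, (s - AA ι k (d l)) j + k * m l = k * S := by
          rw [← hs, ← AA_sum k (d l), ← sum_add', tsub_add_cancel_of_le hle]
        have e1 : ∑ j, (s - AA ι k (d l)) j = k * (S - m l) := by
          rw [Nat.mul_sub]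
          omega
        rw [if_pos e1, mul_smul_comm, mul_smul_comm, map_smul, map_smul,
              smul_smul, smul_smul]
        have e2 : pw F (e l) * ∏ j, f j ^ (s - AA ι k (d l)) j =
            pw f (s - AA ι k (d l) + AA ι k (e l)) := by
          rw [mul_comm, pw_add, ← pw_AA]
          rfl
        rw [e2]
      · have e1 : S.descFactorial (m l) = 0 := Nat.descFactorial_eq_zero_iff_lt.2 (by omega)
        rw [e1]
        simp

end

end Pool.Agent.L5helper20.MQ
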